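import Pool.Agent.U479.DP.Main
import Pool.Agent.Y205.AV.Win

set_option autoImplicit false

/-!
# From generic points to one open set for all degrees
-/

namespace Pool.Agent.U479.DP

open MvPolynomial Pool.Agent.H932R3 Pool.Agent.Y205.AV

/-- one open set for all degrees -/
theorem open_every {n : ℕ} {w : Fin n → ℕ}
    (h : ∀ (d : ℕ) (K : Type) [Field K] [CharZero K] (P : Fin n → Fin 2 → K),
      AlgebraicIndependent ℚ (fun ij : Fin n × Fin 2 => P ij.1 ij.2) → ExpDim K w P d) :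
    ∃ F : MvPolynomial (Fin n × Fin 2) ℚ, F ≠ 0 ∧ ∀ {L : Type} [Field L] [CharZero L]
      (P : Fin n → Fin 2 → L), MvPolynomial.aeval (fun ij : Fin n × Fin 2 => P ij.1 ij.2) F ≠ 0 →
      ∀ d : ℕ, ExpDim L w P d := by
  classical
  choose G hG hG' using fun d => Pool.Agent.TH442.NF.to_open (d := d) (w := w)
    fun {K} _ _ P hP => h d K P hP
  obtain ⟨B, hB, hB'⟩ := big_vectors w
  obtain ⟨μ, hμ⟩ : ∃ μ, μ = ∑ p, w p := ⟨_, rfl⟩
  have hwμ : ∀ p, w p ≤ μ := fun p => by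
    rw [hμ]
    exact Finset.single_le_sum (f := w) (fun i _ => Nat.zero_le _) (Finset.mem_univ p)
  obtain ⟨D, hD⟩ : ∃ D, D = 2 * ∑ p, w p + 52 * (μ + 1) ^ 2 + ∑ p, w p * (w p + 1) := ⟨_, rfl⟩
  refine ⟨B * ∏ d ∈ Finset.range D, G d, mul_ne_zero hB (Finset.prod_ne_zero_iff.2 fun d _ => hG d),
    fun {L} _ _ P hP d => ?_⟩
  rw [map_mul, map_prod] at hP
  rcases Nat.lt_or_ge d D with hd | hd
  · exact hG' d (L := L) P
      (Finset.prod_ne_zero_iff.1 (right_ne_zero_of_mul hP) d (Finset.mem_range.2 hd))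
  · refine hB' P (left_ne_zero_of_mul hP) d μ hwμ (Or.inr ?_)
    unfold gap
    have h1 : d ≤ (d + 1) * (d + 2) := by nlinarith
    omega

end Pool.Agent.U479.DP
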