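import Pool.Agent.U479.DP.Segre
import Pool.Agent.U479.DP.Open
import Pool.Agent.TH885.NW.Exp2

set_option autoImplicit false

/-!
# Segre's form for an open set of points
-/

namespace Pool.Agent.U479.DP

open MvPolynomial Pool.Agent.W609 Pool.Agent.W609.CR Pool.Agent.TH167.SH Pool.Agent.TH167.TT
  Pool.Agent.H932R3

theorem segre_open_eq {n : ℕ} {w : Fin n → ℕ} {S : Finset (Fin n)} (hw2 : ∀ j, j ∉ S → w j ≤ 2)
    (d : ℕ) :
    ∃ F : MvPolynomial (Fin n × Fin 2) ℚ, F ≠ 0 ∧ ∀ (L : Type) [Field L] [CharZero L]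
      (P : Fin n → Fin 2 → L), MvPolynomial.aeval (fun ij : Fin n × Fin 2 => P ij.1 ij.2) F ≠ 0 →
      (∃ f ∈ VS (fun j => aff (P j)) w d, Squarefree f) →
        Module.finrank L ↥(VS (fun j => aff (P j)) w d) +
          ∑ j, (if j ∈ S then 0 else (w j + 1).choose 2) =
        Module.finrank L ↥(VS (fun j => aff (P j)) (fun j => if j ∈ S then w j else 0) d) := by
  classical
  obtain ⟨K0, i1, i2, P0, hP0⟩ := exists_generic n
  obtain ⟨g, F, hF, hF'⟩ := Pool.Agent.TH167.SH.dim_gen w d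
  have h0 := hF' K0 P0 fun h => hF (hP0.eq_zero_of_aeval_eq_zero F h)
  rcases Nat.eq_zero_or_pos g with hg | hg
  · refine ⟨F, hF, fun L _ _ P hP hex => ?_⟩
    exfalso
    obtain ⟨f, hf, hsq⟩ := hex
    have h1 := pos_of_mem hf hsq.ne_zero
    rw [hF' L P hP, hg] at h1
    exact lt_irrefl 0 h1
  rcases segre_eq hw2 hP0 (by rw [h0]; exact hg) with h1 | ⟨e, u, he, hed, hu, hu1, hR⟩
  · obtain ⟨g1, F1, hF1, hF1'⟩ := Pool.Agent.TH167.SH.dim_gen (fun j => if j ∈ S then w j else 0) d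
    rw [h0, hF1' K0 P0 fun h => hF1 (hP0.eq_zero_of_aeval_eq_zero F1 h)] at h1
    refine ⟨F * F1, mul_ne_zero hF hF1, fun L _ _ P hP _ => ?_⟩
    rw [map_mul] at hP
    rw [hF' L P (left_ne_zero_of_mul hP), hF1' L P (right_ne_zero_of_mul hP)]
    exact h1
  · obtain ⟨g1, F1, hF1, hF1'⟩ := Pool.Agent.TH167.SH.dim_gen u e
    obtain ⟨g2, F2, hF2, hF2'⟩ := Pool.Agent.TH167.SH.dim_gen
      (fun j => w j - u j - u j) (d - e - e)
    rw [hF1' K0 P0 fun h => hF1 (hP0.eq_zero_of_aeval_eq_zero F1 h)] at hu1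
    rw [h0, hF2' K0 P0 fun h => hF2 (hP0.eq_zero_of_aeval_eq_zero F2 h)] at hR
    refine ⟨F * (F1 * F2), mul_ne_zero hF (mul_ne_zero hF1 hF2), fun L _ _ P hP hex => ?_⟩
    rw [map_mul, map_mul] at hP
    obtain ⟨f, hf, hsq⟩ := hex
    exact absurd hsq (segre_sq he hed hu
      (by rw [hF1' L P (left_ne_zero_of_mul (right_ne_zero_of_mul hP)), hu1]; exact Nat.one_pos)
      (by rw [hF' L P (left_ne_zero_of_mul hP),
        hF2' L P (right_ne_zero_of_mul (right_ne_zero_of_mul hP)), hR]) hf)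

theorem segre_open {n : ℕ} {w : Fin n → ℕ} {S : Finset (Fin n)} (hw2 : ∀ j, j ∉ S → w j ≤ 2)
    {d : ℕ} (hS : ∀ (K : Type) [Field K] [CharZero K] (P : Fin n → Fin 2 → K),
      AlgebraicIndependent ℚ (fun ij : Fin n × Fin 2 => P ij.1 ij.2) →
      ExpDim K (fun j => if j ∈ S then w j else 0) P d) :
    ∃ F : MvPolynomial (Fin n × Fin 2) ℚ, F ≠ 0 ∧ ∀ (L : Type) [Field L] [CharZero L]
      (P : Fin n → Fin 2 → L), MvPolynomial.aeval (fun ij : Fin n × Fin 2 => P ij.1 ij.2) F ≠ 0 →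
      (∃ f ∈ VS (fun j => aff (P j)) w d, Squarefree f) → ExpDim L w P d := by
  classical
  obtain ⟨F, hF, hF'⟩ := segre_open_eq hw2 d
  obtain ⟨E, hE, hE'⟩ := Pool.Agent.TH442.NF.to_open (d := d)
    (w := fun j => if j ∈ S then w j else 0) fun {K} _ _ P hP => hS K P hP
  refine ⟨F * E, mul_ne_zero hF hE, fun L _ _ P hP hex => ?_⟩
  rw [map_mul] at hP
  have h1 := hF' L P (left_ne_zero_of_mul hP) hex
  have h2 := (Pool.Agent.TH442.NF.expDim_iff P d _).1 (hE' (L := L) P (right_ne_zero_of_mul hP))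
  obtain ⟨f, hf, hsq⟩ := hex
  have h3 := pos_of_mem hf hsq.ne_zero
  have h4 : ∑ j, (w j + 1).choose 2 = ∑ j, ((if j ∈ S then w j else 0) + 1).choose 2 +
      ∑ j, (if j ∈ S then 0 else (w j + 1).choose 2) := by
    rw [← Finset.sum_add_distrib]
    refine Finset.sum_congr rfl fun j _ => ?_
    by_cases hj : j ∈ S
    · simp [hj]
    · simp [hj]
  rw [Pool.Agent.TH442.NF.expDim_iff]
  rw [chi_cast] at h2 ⊢
  omega

/-- the part at `S` is near-uniform -/
theorem near_part {k n m : ℕ} (hk : 10 ≤ k) (hm : 1 ≤ m) (e : Fin k ↪ Fin n) {w : Fin n → ℕ}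
    (hw : ∀ i, w (e i) = m ∨ w (e i) = m + 1) {d : ℕ}
    (hd : Pool.Agent.TH885.NW.upW k <
        2 * (d : ℝ) + 3 - (√(k : ℝ) + 2 * (∑ i, (w (e i) : ℝ)) / √(k : ℝ)) ∨
      2 * (d : ℝ) + 3 - (√(k : ℝ) + 2 * (∑ i, (w (e i) : ℝ)) / √(k : ℝ)) <
        - Pool.Agent.TH885.NW.loW k) (K : Type) [Field K] [CharZero K] (P : Fin n → Fin 2 → K)
    (hP : AlgebraicIndependent ℚ (fun ij : Fin n × Fin 2 => P ij.1 ij.2)) :
    ExpDim K (fun j => if j ∈ Finset.univ.map e then w j else 0) P d := by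
  classical
  obtain ⟨F, hF, hF'⟩ := Pool.Agent.TH885.NW.exp_near2 (L := K) hk hm (w := fun i => w (e i)) hw
  have h2 := Pool.Agent.TH885.CO.exp_plus e
    (w := fun j => if j ∈ Finset.univ.map e then w j else 0) (d := d) (fun i hi => by
      beta_reduce
      rw [if_neg hi]
      exact Nat.zero_le 1)
    ⟨F, hF, fun Q hQ => by
      have h3 : (fun j => (fun j => if j ∈ Finset.univ.map e then w j else 0) (e j)) =
          fun i => w (e i) := by
        funext j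
        beta_reduce
        rw [if_pos (Finset.mem_map_of_mem e (Finset.mem_univ j))]
      rw [h3]
      exact hF' Q hQ d hd⟩ hP
  rw [Pool.Agent.TH442.NF.expDim_iff, h2, chi_cast]
  omega

end Pool.Agent.U479.DP
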