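import Pool.Agent.U479.DP.Segre
import Pool.Agent.TH167.TT.Fin9
import Pool.Agent.TH885.CO.Plus

set_option autoImplicit false

/-!
# Irreducible curves: the points of multiplicity one and two may be omitted
-/

namespace Pool.Agent.U479.DP

open MvPolynomial Pool.Agent.W609 Pool.Agent.W609.CR Pool.Agent.TH167.SH Pool.Agent.TH167.TT

/-- The points outside `S` impose independent conditions, if some member is squarefree. -/
theorem omit_eq {K : Type} [Field K] [CharZero K] {s : ℕ} {P : Fin s → Fin 2 → K}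
    (hP : AlgebraicIndependent ℚ (fun ij : Fin s × Fin 2 => P ij.1 ij.2)) {w : Fin s → ℕ} {d : ℕ}
    {S : Finset (Fin s)} (hw2 : ∀ j, j ∉ S → w j ≤ 2) {f : MvPolynomial (Fin 3) K}
    (hf : f ∈ VS (fun j => aff (P j)) w d) (hsq : Squarefree f) :
    Module.finrank K ↥(VS (fun j => aff (P j)) w d) +
        ∑ j, (if j ∈ S then 0 else (w j + 1).choose 2) =
      Module.finrank K ↥(VS (fun j => aff (P j)) (fun j => if j ∈ S then w j else 0) d) := by
  rcases segre_eq hw2 hP (pos_of_mem hf hsq.ne_zero) with h | ⟨e, u, he, hed, hu, hu1, hR⟩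
  · exact h
  · exact absurd hsq (segre_sq he hed hu (by rw [hu1]; exact Nat.one_pos) hR.le hf)

/-- Points of multiplicity zero may be omitted. -/
theorem emb_dim {K : Type} [Field K] {t s : ℕ} (e : Fin t ↪ Fin s) (P : Fin s → Fin 2 → K)
    {v : Fin s → ℕ} (hv : ∀ j, j ∉ Finset.univ.map e → v j = 0) (d : ℕ) :
    VS (fun j => aff (P (e j))) (fun j => v (e j)) d = VS (fun j => aff (P j)) v d := by
  ext f
  rw [mem_VS, mem_VS]
  refine and_congr_right fun _ => ⟨fun h j => ?_, fun h j => h (e j)⟩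
  by_cases hj : j ∈ Finset.univ.map e
  · obtain ⟨i, -, rfl⟩ := Finset.mem_map.1 hj
    exact h i
  · rw [hv j hj]
    exact van_zero _ _

theorem emb_sum {t s : ℕ} (e : Fin t ↪ Fin s) (v : Fin s → ℕ) :
    ∑ j, (v j + 1).choose 2 = ∑ i, (v (e i) + 1).choose 2 +
      ∑ j, (if j ∈ Finset.univ.map e then 0 else (v j + 1).choose 2) := by
  classical
  have h1 : ∑ i, (v (e i) + 1).choose 2 = ∑ j ∈ Finset.univ.map e, (v j + 1).choose 2 :=
    (Finset.sum_map Finset.univ e fun j => (v j + 1).choose 2).symm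
  rw [h1, ← Finset.sum_filter_add_sum_filter_not Finset.univ (fun j => j ∈ Finset.univ.map e)]
  congr 1
  · refine Finset.sum_congr ?_ fun _ _ => rfl
    ext j
    simp
  · rw [Finset.sum_filter]
    refine Finset.sum_congr rfl fun j _ => ?_
    by_cases hj : j ∈ Finset.univ.map e
    · rw [if_neg (not_not.2 hj), if_pos hj]
    · rw [if_pos hj, if_neg hj]

/-- **The points of multiplicity `1` and `2` of an irreducible curve may be omitted.** -/
theorem omit_curve {K : Type} [Field K] [CharZero K] {t s : ℕ} {P : Fin s → Fin 2 → K}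
    (hP : AlgebraicIndependent ℚ (fun ij : Fin s × Fin 2 => P ij.1 ij.2)) (e : Fin t ↪ Fin s)
    {w : Fin s → ℕ} {d : ℕ} (hw2 : ∀ j, j ∉ Finset.univ.map e → w j ≤ 2)
    {f : MvPolynomial (Fin 3) K} (hf : f ∈ VS (fun j => aff (P j)) w d) (hsq : Squarefree f) :
    (Module.finrank K ↥(VS (fun j => aff (P (e j))) (fun j => w (e j)) d) : ℤ) -
        chi d (fun j => w (e j)) =
      (Module.finrank K ↥(VS (fun j => aff (P j)) w d) : ℤ) - chi d w := by
  classical
  have h1 := omit_eq hP hw2 hf hsq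
  obtain ⟨v, hv⟩ : ∃ v : Fin s → ℕ, v = fun j => if j ∈ Finset.univ.map e then w j else 0 :=
    ⟨_, rfl⟩
  have h2 := emb_dim e P (v := v) (fun j hj => by rw [hv]; exact if_neg hj) d
  have h3 : (fun j => v (e j)) = fun j => w (e j) := by
    funext j
    rw [hv]
    exact if_pos (Finset.mem_map_of_mem e (Finset.mem_univ j))
  rw [h3] at h2
  rw [h2]
  rw [← hv] at h1
  have h4 := emb_sum e w
  rw [chi_cast, chi_cast]
  omega

/-- **Reduction of a prime divisor to a standard one with all multiplicities at least three.** -/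
theorem prime_three {K : Type} [Field K] [CharZero K] {r : ℕ} {P : Fin (r + 4) → Fin 2 → K}
    (hP : AlgebraicIndependent ℚ (fun ij : Fin (r + 4) × Fin 2 => P ij.1 ij.2))
    {w : Fin (r + 4) → ℕ} {d : ℕ} {G : MvPolynomial (Fin 3) K} (hG : Irreducible G)
    (hGe : G.IsHomogeneous d) (hord : ∀ j, Ord (aff (P j)) (w j) G) :
    (Module.finrank K ↥(VS (fun j => aff (P j)) w d) : ℤ) = chi d w ∨
      ∃ (P1 : Fin (r + 4) → Fin 2 → K) (d1 : ℕ) (w1 : Fin (r + 4) → ℕ)
        (G1 : MvPolynomial (Fin 3) K) (t : ℕ) (e : Fin t ↪ Fin (r + 4)),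
        AlgebraicIndependent ℚ (fun ij : Fin (r + 4) × Fin 2 => P1 ij.1 ij.2) ∧
        Relation.ReflTransGen Quad (d, w) (d1, w1) ∧ Reduced d1 w1 ∧
        Irreducible G1 ∧ G1.IsHomogeneous d1 ∧ (∀ j, Ord (aff (P1 j)) (w1 j) G1) ∧
        (∀ j, j ∈ Finset.univ.map e ↔ 3 ≤ w1 j) ∧ 10 ≤ t ∧
        (Module.finrank K ↥(VS (fun j => aff (P1 (e j))) (fun j => w1 (e j)) d1) : ℤ) -
            chi d1 (fun j => w1 (e j)) =
          (Module.finrank K ↥(VS (fun j => aff (P j)) w d) : ℤ) - chi d w := by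
  classical
  rcases irr_red d P hP w G hG hGe hord with ⟨c1, -, -⟩ | ⟨P1, d1, w1, G1, a1, a2, a3, a4, a5,
    a6, a7, a8, a9⟩
  · exact Or.inl c1
  obtain ⟨S, hS⟩ : ∃ S : Finset (Fin (r + 4)), S = Finset.univ.filter fun j => 3 ≤ w1 j :=
    ⟨_, rfl⟩
  have hmS : ∀ j, j ∈ S ↔ 3 ≤ w1 j := fun j => by rw [hS]; simp
  obtain ⟨e, he⟩ : ∃ e : Fin S.card ↪ Fin (r + 4), Finset.univ.map e = S :=
    ⟨(S.orderEmbOfFin rfl).toEmbedding, S.map_orderEmbOfFin_univ rfl⟩
  obtain ⟨q1, -, -⟩ := quad_inv a5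
  simp only at q1
  have hmem : G1 ∈ VS (fun j => aff (P1 j)) w1 d1 := (mem_VS _ _ _ _).2 ⟨a3, fun j => (a4 j).1⟩
  rcases Nat.lt_or_ge S.card 10 with h9 | h9
  · left
    have h2 := red9 a6 (show S.card ≤ 9 by omega) (fun j hj => by
      rw [hmS] at hj
      omega) a1 (pos_of_mem hmem a2.ne_zero)
    rw [← q1, ← a9]
    exact h2
  · right
    refine ⟨P1, d1, w1, G1, S.card, e, a1, a5, a6, a2, a3, a4, fun j => by rw [he, hmS], h9, ?_⟩
    rw [omit_curve a1 e (fun j hj => by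
      rw [he, hmS] at hj
      omega) hmem a2.squarefree, q1, a9]

end Pool.Agent.U479.DP
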