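import Pool.Agent.U479.DP.Fold
import Pool.Agent.TH167.TT.Tlem

set_option autoImplicit false

/-!
# Rigid systems with double points outside a symmetric set of points
-/

namespace Pool.Agent.U479.DP

open MvPolynomial Pool.Agent.W609 Pool.Agent.W609.CR Pool.Agent.TH167.SH Pool.Agent.TH167.TT

/-- All vectors which are at most `1` outside `S`, at most `w` at the points of `S` and have equal
values at the points of `S` at which `w` has equal values are never special. -/
def Base {s : ℕ} (w : Fin s → ℕ) (S : Finset (Fin s)) : Prop :=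
  ∀ v : Fin s → ℕ, (∀ j, j ∉ S → v j ≤ 1) → (∀ i ∈ S, ∀ j ∈ S, w i = w j → v i = v j) →
    (∀ j ∈ S, v j ≤ w j) → ∀ (e : ℕ) (K : Type) [Field K] [CharZero K] (P : Fin s → Fin 2 → K),
      AlgebraicIndependent ℚ (fun ij : Fin s × Fin 2 => P ij.1 ij.2) →
      0 < Module.finrank K ↥(VS (fun j => aff (P j)) v e) →
      (Module.finrank K ↥(VS (fun j => aff (P j)) v e) : ℤ) = chi e v

/-- A rigid class with a squarefree member. -/
theorem rig_sq {K : Type} [Field K] [CharZero K] {s : ℕ} {P : Fin s → Fin 2 → K}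
    (hP : AlgebraicIndependent ℚ (fun ij : Fin s × Fin 2 => P ij.1 ij.2)) {d : ℕ}
    {w v : Fin s → ℕ} {S : Finset (Fin s)} (hB : Base w S) (hv : ∀ j, j ∉ S → v j ≤ 2)
    (hsym : ∀ i ∈ S, ∀ j ∈ S, w i = w j → v i = v j) (hvw : ∀ j ∈ S, v j ≤ w j)
    (h1 : Module.finrank K ↥(VS (fun j => aff (P j)) v d) = 1)
    {f : MvPolynomial (Fin 3) K} (hf : f ∈ VS (fun j => aff (P j)) v d) (hf0 : f ≠ 0)
    (hsq : Squarefree f) : chi d v = 1 := by
  classical
  have h2 := tlem hP h1 hf hf0 hsq S hv
  have h3 := hB (fun j => if j ∈ S then v j else 0) (fun j hj => by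
      beta_reduce
      rw [if_neg hj]
      exact Nat.zero_le 1) (fun i hi j hj h => by
      beta_reduce
      rw [if_pos hi, if_pos hj]
      exact hsym i hi j hj h) (fun j hj => by
      beta_reduce
      rw [if_pos hj]
      exact hvw j hj) d K P hP (by omega)
  have h4 : ∑ j, (v j + 1).choose 2 = ∑ j, ((if j ∈ S then v j else 0) + 1).choose 2 +
      ∑ j, (if j ∈ S then 0 else (v j + 1).choose 2) := by
    rw [← Finset.sum_add_distrib]
    refine Finset.sum_congr rfl fun j _ => ?_
    by_cases hj : j ∈ S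
    · simp [hj]
    · simp [hj]
  have h5 := chi_le_dim P d v
  rw [h1] at h5
  rw [chi_cast] at h3 h5 ⊢
  push_cast at h3 h5
  push_cast
  have h6 : (1 : ℤ) + ((∑ j, (if j ∈ S then 0 else (v j + 1).choose 2) : ℕ) : ℤ) ≤
      (Module.finrank K ↥(VS (fun j => aff (P j)) (fun j => if j ∈ S then v j else 0) d) : ℤ) := by
    exact_mod_cast h2
  have h7 : ((∑ j, (v j + 1).choose 2 : ℕ) : ℤ) =
      ((∑ j, ((if j ∈ S then v j else 0) + 1).choose 2 : ℕ) : ℤ) +
      ((∑ j, (if j ∈ S then 0 else (v j + 1).choose 2) : ℕ) : ℤ) := by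
    exact_mod_cast h4
  push_cast at h6 h7
  linarith

/-- The numbers of a symmetric curve which is rigid together with its double. -/
theorem num_zero {s : ℕ} {E : ℕ} {U : Fin s → ℕ} (c1 : chi E U = 1)
    (c2 : chi (E + E) (fun j => U j + U j) ≤ 1) {j0 : Fin s} (h0 : U j0 ≠ 0)
    (h10 : ∀ j, 10 * U j ≤ ∑ i, U i) : False := by
  have t1 := two_chi E U
  rw [c1] at t1
  have t2 := two_chi (E + E) (fun j => U j + U j)
  rw [ip_add, ip_comm E (E + E), ip_add, kk_add] at t2
  obtain ⟨A2, hA2⟩ : ∃ A2 : ℤ, A2 = ∑ j, (U j : ℤ) * U j := ⟨_, rfl⟩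
  obtain ⟨a1, ha1⟩ : ∃ a1 : ℤ, a1 = ∑ j, (U j : ℤ) := ⟨_, rfl⟩
  have e1 : ip E U E U = (E : ℤ) * E - A2 := by rw [hA2]; rfl
  have e2 : kk E U = 3 * (E : ℤ) - a1 := by rw [ha1]; rfl
  rw [e1, e2] at t1 t2
  have h1 : (E : ℤ) * E ≤ A2 := by omega
  have h2 : a1 ≤ 3 * (E : ℤ) := by omega
  have h3 : ∀ j, 10 * (U j : ℤ) ≤ a1 := by
    intro j
    rw [ha1]
    exact_mod_cast h10 j
  have h4 : 10 * A2 ≤ a1 * a1 := by
    have h5 : ∑ j, (10 * (U j : ℤ)) * U j ≤ ∑ j, a1 * (U j : ℤ) :=
      Finset.sum_le_sum fun j _ => mul_le_mul_of_nonneg_right (h3 j) (by positivity)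
    rw [← Finset.mul_sum, ← ha1] at h5
    have h6 : ∑ j, (10 * (U j : ℤ)) * U j = 10 * A2 := by
      rw [hA2, Finset.mul_sum]
      exact Finset.sum_congr rfl fun j _ => by ring
    linarith
  have h7 : 10 ≤ a1 := by
    have h8 := h3 j0
    have h9 : (1 : ℤ) ≤ U j0 := by
      have := Nat.one_le_iff_ne_zero.2 h0
      exact_mod_cast this
    linarith
  have h8 : a1 * a1 ≤ (3 * (E : ℤ)) * (3 * E) := mul_le_mul h2 h2 (by linarith) (by positivity)
  nlinarith

/-- The Euler characteristic of a rigid system with double points outside a symmetric set. -/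
theorem rigid {K : Type} [Field K] [CharZero K] {s : ℕ} {P : Fin s → Fin 2 → K}
    (hP : AlgebraicIndependent ℚ (fun ij : Fin s × Fin 2 => P ij.1 ij.2)) {d : ℕ}
    {w : Fin s → ℕ} {S : Finset (Fin s)} (hB : Base w S) (hS0 : S.Nonempty)
    (h10 : ∀ i ∈ S, 10 ≤ (S.filter fun j => w j = w i).card) (hw1 : ∀ j ∈ S, 1 ≤ w j)
    (hw2 : ∀ j, j ∉ S → w j ≤ 2)
    (h1 : Module.finrank K ↥(VS (fun j => aff (P j)) w d) = 1) : chi d w = 1 := by
  classical
  obtain ⟨f, hf, hf0⟩ := exists_mem (by rw [h1]; exact one_pos)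
  by_cases hsq : Squarefree f
  · exact rig_sq hP hB hw2 (fun i _ j _ h => h) (fun _ _ => le_rfl) h1 hf hf0 hsq
  -- a double component
  unfold Squarefree at hsq
  push Not at hsq
  obtain ⟨x, hx1, hx2⟩ := hsq
  have hx0 : x ≠ 0 := fun h => hf0 (by rw [h, zero_mul, zero_dvd_iff] at hx1; exact hx1)
  obtain ⟨G, hG, hGx⟩ := WfDvdMonoid.exists_irreducible_factor hx2 hx0
  obtain ⟨h, hh⟩ : ∃ h, f = G * (G * h) := by
    obtain ⟨y, hy⟩ := hGx
    obtain ⟨z, hz⟩ := hx1
    exact ⟨y * y * z, by rw [hz, hy]; ring⟩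
  have hfm := (mem_VS _ _ _ _).1 hf
  have hGe := Pool.Agent.Chud.homog_of_dvd hfm.1 hf0 (Dvd.intro _ hh.symm)
  choose u hu using fun j => exists_ord (p := P j) hG.ne_zero hGe
  obtain ⟨-, -, -, -, b1, -, -⟩ := dbl hP h1 hf hf0 hGe hu hh
  obtain ⟨E, U, F, g, hE0, hFsq, hFg, hFh, hFo, hsym⟩ :=
    orbit hP h1 hf hf0 ⟨hG, hGe, hu, b1⟩ hh
  obtain ⟨hwU, hEd, hg0, hgm, r1, r2, r3⟩ := dbl hP h1 hf hf0 hFh hFo hFg
  have hswap : ∀ i j, w i = w j → U i = U j := by
    intro i j hij
    have h2 := hsym (Equiv.swap i j) (fun l => by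
      by_cases hl : l = i
      · rw [hl, Equiv.swap_apply_left, hij]
      · by_cases hl2 : l = j
        · rw [hl2, Equiv.swap_apply_right, hij]
        · rw [Equiv.swap_apply_of_ne_of_ne hl hl2]) j
    rw [Equiv.swap_apply_right] at h2
    exact h2
  have hFm : F ∈ VS (fun j => aff (P j)) U E := (mem_VS _ _ _ _).2 ⟨hFh, fun j => (hFo j).1⟩
  have hF0 : F ≠ 0 := fun h0 => hf0 (by rw [hFg, h0, zero_mul])
  have c1 : chi E U = 1 := rig_sq hP hB (fun j hj => by
    have := hwU j
    have := hw2 j hj
    omega) (fun i _ j _ h => hswap i j h) (fun j _ => by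
    have := hwU j
    omega) r1 hFm hF0 hFsq
  have c2 : chi (E + E) (fun j => U j + U j) ≤ 1 := by
    have := chi_le_dim P (E + E) (fun j => U j + U j)
    omega
  -- no double component through the points of `S`
  have hUS : ∀ j ∈ S, U j = 0 := by
    intro j0 hj0
    by_contra hne
    have hgrp : ∀ i ∈ S, 10 * U i ≤ ∑ l, U l := by
      intro i hi
      have h2 : (S.filter fun j => w j = w i).card * U i =
          ∑ l ∈ S.filter (fun j => w j = w i), U l := by
        rw [Finset.sum_congr rfl (fun l hl => hswap l i (Finset.mem_filter.1 hl).2),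
          Finset.sum_const, smul_eq_mul]
      have h3 : ∑ l ∈ S.filter (fun j => w j = w i), U l ≤ ∑ l, U l :=
        Finset.sum_le_univ_sum_of_nonneg fun l => Nat.zero_le _
      have h4 := Nat.mul_le_mul_right (U i) (h10 i hi)
      omega
    refine num_zero c1 c2 hne fun j => ?_
    by_cases hj : j ∈ S
    · exact hgrp j hj
    · have h2 := hgrp j0 hj0
      have h3 := hwU j
      have h4 := hw2 j hj
      omega
  have hU1 : ∀ j, U j ≤ 1 := by
    intro j
    by_cases hj : j ∈ S
    · rw [hUS j hj]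
      exact Nat.zero_le 1
    · have h3 := hwU j
      have h4 := hw2 j hj
      omega
  -- the numbers of the double part
  obtain ⟨a, ha⟩ : ∃ a : ℤ, a = ∑ j, (U j : ℤ) := ⟨_, rfl⟩
  have ha2 : ∑ j, (U j : ℤ) * U j = a := by
    rw [ha]
    refine Finset.sum_congr rfl fun j _ => ?_
    have h2 := hU1 j
    interval_cases h3 : U j <;> simp
  have t1 := two_chi E U
  rw [c1] at t1
  have e1 : ip E U E U = (E : ℤ) * E - a := by
    rw [← ha2]
    rfl
  have e2 : kk E U = 3 * (E : ℤ) - a := by rw [ha]; rfl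
  rw [e1, e2] at t1
  -- a double point on the double part
  obtain ⟨j1, hj1⟩ : ∃ j1, U j1 ≠ 0 := by
    by_contra hcon
    push Not at hcon
    have h2 : a = 0 := by
      rw [ha]
      exact Finset.sum_eq_zero fun j _ => by rw [hcon j]; rfl
    have hEZ : (1 : ℤ) ≤ E := by exact_mod_cast hE0
    nlinarith
  have hj1S : j1 ∉ S := fun h2 => hj1 (hUS j1 h2)
  have hwj1 : w j1 = 2 := by
    have h3 := hwU j1
    have h4 := hw2 j1 hj1S
    omega
  -- the residual class
  have c3 : chi (d - E) (fun j => w j - U j) = 1 := by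
    have h2 := hB (fun j => w j - U j) (fun j hj => by
      beta_reduce
      have h3 := hwU j
      have h4 := hw2 j hj
      by_cases h5 : w j = 2
      · have h6 := hswap j j1 (by rw [h5, hwj1])
        omega
      · omega) (fun i hi j hj hij => by
      beta_reduce
      rw [hij, hUS i hi, hUS j hj]) (fun j _ => Nat.sub_le _ _) (d - E) K P hP
      (by rw [r2]; exact one_pos)
    rw [r2] at h2
    exact h2.symm
  -- the degree
  have hdeg : 2 * E < d := by
    rcases Nat.lt_or_ge (2 * E) d with h2 | h2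
    · exact h2
    · exfalso
      obtain ⟨j, hj⟩ := hS0
      have h3 := (mem_VS _ _ _ _).1 hgm
      have h4 := van_le hg0 h3.1 (h3.2 j)
      have h5 := hw1 j hj
      have h6 := hUS j hj
      omega
  -- the Euler characteristic
  have s1 : ip d w d w = ip (d - E) (fun j => w j - U j) (d - E) (fun j => w j - U j) +
      2 * ip (d - E) (fun j => w j - U j) E U + ip E U E U := by
    have a1 := ip_sq (d - E) E (fun j => w j - U j) U
    have hD : (fun j => (w j - U j) + U j) = w := by
      funext j
      have := hwU j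
      omega
    have hd : d - E + E = d := by omega
    rw [hD, hd] at a1
    exact a1
  have s3 : kk d w = kk (d - E) (fun j => w j - U j) + kk E U := by
    have a1 := kk_add (d - E) E (fun j => w j - U j) U
    have hD : (fun j => (w j - U j) + U j) = w := by
      funext j
      have := hwU j
      omega
    have hd : d - E + E = d := by omega
    rw [hD, hd] at a1
    exact a1
  have s4 := two_chi d w
  have s5 := two_chi (d - E) (fun j => w j - U j)
  rw [c3] at s5
  have s6 := chi_le_dim P d w
  rw [h1] at s6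
  have s7 : ip (d - E) (fun j => w j - U j) E U = ((d : ℤ) - E) * E - a := by
    unfold ip
    have h2 : ((d - E : ℕ) : ℤ) = (d : ℤ) - E := by
      rw [Nat.cast_sub (by omega)]
    rw [h2, ha]
    congr 1
    refine Finset.sum_congr rfl fun j _ => ?_
    have h3 := hU1 j
    interval_cases h4 : U j
    · simp
    · have h5 := hwU j
      have h6 : j ∉ S := fun h7 => by
        have := hUS j h7
        omega
      have h7 := hw2 j h6
      have h8 : w j = 2 := by omega
      beta_reduce
      rw [h8, h4]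
      norm_num
  have hdZ : 2 * (E : ℤ) + 1 ≤ d := by exact_mod_cast hdeg
  have hEZ : (1 : ℤ) ≤ E := by exact_mod_cast hE0
  have s8 : 0 ≤ ((d : ℤ) - E) * E - a := by nlinarith
  push_cast at s6
  omega

/-- The Euler characteristic of a nonempty system. -/
theorem coren {K : Type} [Field K] [CharZero K] {s : ℕ} {P : Fin s → Fin 2 → K}
    (hP : AlgebraicIndependent ℚ (fun ij : Fin s × Fin 2 => P ij.1 ij.2)) {d : ℕ}
    {S : Finset (Fin s)} (hS0 : S.Nonempty) :
    ∀ (n : ℕ) (w : Fin s → ℕ) (_ : Base w S)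
      (_ : ∀ i ∈ S, 10 ≤ (S.filter fun j => w j = w i).card) (_ : ∀ j ∈ S, 1 ≤ w j)
      (_ : ∀ j, j ∉ S → w j ≤ 2)
      (_ : n ≤ (Finset.univ.filter fun j => j ∉ S ∧ w j = 0).card)
      (_ : Module.finrank K ↥(VS (fun j => aff (P j)) w d) = n + 1), chi d w = n + 1 := by
  classical
  intro n
  induction n with
  | zero =>
    intro w hB h10 hw1 hw2 _ h1
    rw [rigid hP hB hS0 h10 hw1 hw2 h1]
    rfl
  | succ n ih =>
    intro w hB h10 hw1 hw2 hc h1
    obtain ⟨j0, hj0⟩ : ∃ j0, j0 ∈ Finset.univ.filter fun j => j ∉ S ∧ w j = 0 := by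
      apply Finset.card_pos.1
      omega
    obtain ⟨-, hj0S, hj00⟩ := Finset.mem_filter.1 hj0
    have h7 := simple_drop hP hj00 (d := d) (by omega)
    have h8 := simple_le P hj00 d
    have hne : ∀ j ∈ S, Function.update w j0 1 j = w j := by
      intro j hj
      rw [Function.update_of_ne]
      rintro rfl
      exact hj0S hj
    have h9 := ih (Function.update w j0 1) (by
        intro v hv1 hv2 hv3
        refine hB v hv1 (fun i hi j hj hij => hv2 i hi j hj ?_) fun j hj => ?_
        · rw [hne i hi, hne j hj, hij]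
        · rw [← hne j hj]
          exact hv3 j hj) (by
        intro i hi
        have e1 : (S.filter fun j => Function.update w j0 1 j = Function.update w j0 1 i) =
            S.filter fun j => w j = w i := by
          refine Finset.filter_congr fun j hj => ?_
          rw [hne i hi, hne j hj]
        rw [e1]
        exact h10 i hi) (by
        intro j hj
        rw [hne j hj]
        exact hw1 j hj) (by
        intro j hj
        by_cases h : j = j0
        · rw [h, Function.update_self]
          norm_num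
        · rw [Function.update_of_ne h]
          exact hw2 j hj) (by
        have h2 : (Finset.univ.filter fun j => j ∉ S ∧ w j = 0).erase j0 ⊆
            Finset.univ.filter fun j => j ∉ S ∧ Function.update w j0 1 j = 0 := by
          intro j hj
          rw [Finset.mem_erase, Finset.mem_filter] at hj
          rw [Finset.mem_filter]
          refine ⟨Finset.mem_univ _, hj.2.2.1, ?_⟩
          rw [Function.update_of_ne hj.1]
          exact hj.2.2.2
        have h3 := Finset.card_le_card h2
        rw [Finset.card_erase_of_mem hj0] at h3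
        omega) (by omega)
    have h10' : chi d (Function.update w j0 1) = chi d w - 1 := by
      rw [chi_cast, chi_cast]
      have h2 : ∑ j, (Function.update w j0 1 j + 1).choose 2 =
          ∑ j, (w j + 1).choose 2 + 1 := by
        have h3 : ∀ j, (Function.update w j0 1 j + 1).choose 2 =
            (w j + 1).choose 2 + if j = j0 then 1 else 0 := by
          intro j
          by_cases h : j = j0
          · rw [h, Function.update_self, if_pos rfl, hj00]
            rfl
          · rw [Function.update_of_ne h, if_neg h, add_zero]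
        rw [Finset.sum_congr rfl fun j _ => h3 j, Finset.sum_add_distrib, Finset.sum_ite_eq',
          if_pos (Finset.mem_univ _)]
      rw [h2]
      push_cast
      ring
    rw [h10'] at h9
    push_cast
    omega

end Pool.Agent.U479.DP
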