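import Pool.Agent.U479.DP.Orb

set_option autoImplicit false

/-!
# The symmetric double part of the member of a rigid system
-/

namespace Pool.Agent.U479.DP

open MvPolynomial Pool.Agent.W609 Pool.Agent.W609.CR Pool.Agent.TH167.SH Pool.Agent.TH167.TT

theorem le_of_van {K : Type} [Field K] {v : Fin 3 → K} {a b : ℕ} {f : MvPolynomial (Fin 3) K}
    (h : Van v a f) (h' : Ord v b f) : a ≤ b := by
  by_contra hcon
  exact h'.2 (van_mono (by omega) h)

theorem ord_one {K : Type} [Field K] (v : Fin 3 → K) : Ord v 0 (1 : MvPolynomial (Fin 3) K) := by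
  refine ⟨van_zero _ _, fun h => ?_⟩
  unfold Van at h
  rw [zero_add, pow_one, RingHom.mem_ker, map_one] at h
  exact one_ne_zero h

theorem ord_prod {K : Type} [Field K] {ι : Type} (v : Fin 3 → K) (T : Finset ι)
    (g : ι → MvPolynomial (Fin 3) K) (a : ι → ℕ) (h : ∀ i ∈ T, Ord v (a i) (g i)) :
    Ord v (∑ i ∈ T, a i) (∏ i ∈ T, g i) := by
  classical
  induction T using Finset.induction_on with
  | empty => simpa using ord_one v
  | insert i T hi ih =>
    rw [Finset.sum_insert hi, Finset.prod_insert hi]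
    exact ord_mul (h i (Finset.mem_insert_self i T))
      (ih fun j hj => h j (Finset.mem_insert_of_mem hj))

/-- The numerical data of a double component of the member of a rigid system. -/
theorem dbl {K : Type} [Field K] [CharZero K] {s : ℕ} {P : Fin s → Fin 2 → K}
    (hP : AlgebraicIndependent ℚ (fun ij : Fin s × Fin 2 => P ij.1 ij.2))
    {w : Fin s → ℕ} {d : ℕ} (h1 : Module.finrank K ↥(VS (fun j => aff (P j)) w d) = 1)
    {f : MvPolynomial (Fin 3) K} (hf : f ∈ VS (fun j => aff (P j)) w d) (hf0 : f ≠ 0)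
    {G h : MvPolynomial (Fin 3) K} {e : ℕ} {u : Fin s → ℕ} (hGe : G.IsHomogeneous e)
    (hu : ∀ j, Ord (aff (P j)) (u j) G) (hh : f = G * (G * h)) :
    (∀ j, 2 * u j ≤ w j) ∧ 2 * e ≤ d ∧ h ≠ 0 ∧
      h ∈ VS (fun j => aff (P j)) (fun j => w j - u j - u j) (d - e - e) ∧
      Module.finrank K ↥(VS (fun j => aff (P j)) u e) = 1 ∧
      Module.finrank K ↥(VS (fun j => aff (P j)) (fun j => w j - u j) (d - e)) = 1 ∧
      Module.finrank K ↥(VS (fun j => aff (P j)) (fun j => u j + u j) (e + e)) ≤ 1 := by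
  classical
  have hGh0 : G * h ≠ 0 := fun h0 => hf0 (by rw [hh, h0, mul_zero])
  have hh0 : h ≠ 0 := fun h0 => hGh0 (by rw [h0, mul_zero])
  have hG0 : G ≠ 0 := fun h0 => hGh0 (by rw [h0, zero_mul])
  obtain ⟨hed, hGhm⟩ := mem_of_factor hf hf0 hGe hu hh
  obtain ⟨hed2, hhm⟩ := mem_of_factor hGhm hGh0 hGe hu rfl
  have hwu : ∀ j, 2 * u j ≤ w j := by
    intro j
    obtain ⟨v, hv⟩ := exists_ord (p := P j) hh0 ((mem_VS _ _ _ _).1 hhm).1
    have h2 := ord_mul (hu j) (ord_mul (hu j) hv)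
    rw [← hh] at h2
    have h3 := ord_unique (exact_ord hP h1 hf hf0 j) h2
    omega
  have hGm : G ∈ VS (fun j => aff (P j)) u e := by
    rw [mem_VS]
    exact ⟨hGe, fun j => (hu j).1⟩
  have r1 : Module.finrank K ↥(VS (fun j => aff (P j)) u e) = 1 := by
    have h2 := mult_le (w := u) (d := e) hGhm hGh0
    have e1 : (fun j => u j + (w j - u j)) = w := by
      funext j
      have := hwu j
      omega
    have e2 : e + (d - e) = d := by omega
    rw [e1, e2, h1] at h2
    have h3 := pos_of_mem hGm hG0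
    omega
  have r2 : Module.finrank K ↥(VS (fun j => aff (P j)) (fun j => w j - u j) (d - e)) = 1 := by
    have h2 := mult_le (w := fun j => w j - u j) (d := d - e) hGm hG0
    have e1 : (fun j => w j - u j + u j) = w := by
      funext j
      have := hwu j
      omega
    have e2 : d - e + e = d := by omega
    rw [e1, e2, h1] at h2
    have h3 := pos_of_mem hGhm hGh0
    omega
  have r3 : Module.finrank K ↥(VS (fun j => aff (P j)) (fun j => u j + u j) (e + e)) ≤ 1 := by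
    have h2 := mult_le (w := fun j => u j + u j) (d := e + e) hhm hh0
    have e1 : (fun j => u j + u j + (w j - u j - u j)) = w := by
      funext j
      have := hwu j
      omega
    have e2 : e + e + (d - e - e) = d := by omega
    rw [e1, e2, h1] at h2
    exact h2
  exact ⟨hwu, by omega, hh0, hhm, r1, r2, r3⟩

/-- The conjugates of a double component are double components. -/
theorem conj_dvd {K : Type} [Field K] [CharZero K] {s : ℕ} {P : Fin s → Fin 2 → K}
    (hP : AlgebraicIndependent ℚ (fun ij : Fin s × Fin 2 => P ij.1 ij.2))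
    {w : Fin s → ℕ} {d : ℕ} (h1 : Module.finrank K ↥(VS (fun j => aff (P j)) w d) = 1)
    {f : MvPolynomial (Fin 3) K} (hf : f ∈ VS (fun j => aff (P j)) w d) (hf0 : f ≠ 0)
    {G h : MvPolynomial (Fin 3) K} {e : ℕ} {u : Fin s → ℕ} (hR : Rig P G e u)
    (hh : f = G * (G * h)) (σ : Equiv.Perm (Fin s)) (hσ : ∀ j, w (σ j) = w j) :
    ∃ G' : MvPolynomial (Fin 3) K, Rig P G' e (fun j => u (σ j)) ∧ G' * G' ∣ f := by
  classical
  obtain ⟨hwu, hed, hh0, hhm, -, -, -⟩ := dbl hP h1 hf hf0 hR.hom hR.ord hh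
  obtain ⟨G', hG'⟩ := hR.perm hP σ
  refine ⟨G', hG', ?_⟩
  have p1 : 0 < Module.finrank K ↥(VS (fun j => aff (P j))
      (fun j => (fun i => w i - u i - u i) (σ j)) (d - e - e)) := by
    rw [perm_dim hP σ (fun i => w i - u i - u i)]
    exact pos_of_mem hhm hh0
  obtain ⟨h', hh', hh'0⟩ := exists_mem p1
  have hG'm := hG'.mem
  have hm : G' * (G' * h') ∈ VS (fun j => aff (P j)) w d := by
    rw [mem_VS] at hh' hG'm ⊢
    refine ⟨?_, fun j => ?_⟩
    · have h2 := hG'm.1.mul (hG'm.1.mul hh'.1)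
      have e1 : e + (e + (d - e - e)) = d := by omega
      rwa [e1] at h2
    · have h2 := van_mul (hG'm.2 j) (van_mul (hG'm.2 j) (hh'.2 j))
      have h3 := hwu (σ j)
      have h4 := hσ j
      have e1 : u (σ j) + (u (σ j) + (w (σ j) - u (σ j) - u (σ j))) = w j := by omega
      beta_reduce at h2
      rwa [e1] at h2
  obtain ⟨c, hc⟩ := eq_smul h1 hf hf0 hm
  have hc0 : c ≠ 0 := by
    intro h0
    rw [h0, C_0, zero_mul] at hc
    exact mul_ne_zero hG'.irr.ne_zero (mul_ne_zero hG'.irr.ne_zero hh'0) hc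
  have hcc : (C c⁻¹ : MvPolynomial (Fin 3) K) * C c = 1 := by
    rw [← C_mul, inv_mul_cancel₀ hc0, C_1]
  refine ⟨C c⁻¹ * h', ?_⟩
  calc f = (C c⁻¹ * C c) * f := by rw [hcc, one_mul]
    _ = C c⁻¹ * (C c * f) := by ring
    _ = C c⁻¹ * (G' * (G' * h')) := by rw [hc]
    _ = G' * G' * (C c⁻¹ * h') := by ring

/-- The product of the conjugates of a double component of the member of a rigid system: a
squarefree form with symmetric multiplicities. -/
theorem orbit {K : Type} [Field K] [CharZero K] {s : ℕ} {P : Fin s → Fin 2 → K}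
    (hP : AlgebraicIndependent ℚ (fun ij : Fin s × Fin 2 => P ij.1 ij.2))
    {w : Fin s → ℕ} {d : ℕ} (h1 : Module.finrank K ↥(VS (fun j => aff (P j)) w d) = 1)
    {f : MvPolynomial (Fin 3) K} (hf : f ∈ VS (fun j => aff (P j)) w d) (hf0 : f ≠ 0)
    {G h : MvPolynomial (Fin 3) K} {e : ℕ} {u : Fin s → ℕ} (hR : Rig P G e u)
    (hh : f = G * (G * h)) :
    ∃ (E : ℕ) (U : Fin s → ℕ) (F g : MvPolynomial (Fin 3) K), 0 < E ∧ Squarefree F ∧
      f = F * (F * g) ∧ F.IsHomogeneous E ∧ (∀ j, Ord (aff (P j)) (U j) F) ∧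
      ∀ σ : Equiv.Perm (Fin s), (∀ j, w (σ j) = w j) → ∀ j, U (σ j) = U j := by
  classical
  obtain ⟨O, hO⟩ : ∃ O : Finset (Fin s → ℕ), O =
    (Finset.univ.filter (fun σ : Equiv.Perm (Fin s) => ∀ j, w (σ j) = w j)).image
      (fun σ => fun j => u (σ j)) := ⟨_, rfl⟩
  have hmemO : ∀ v, v ∈ O ↔ ∃ σ : Equiv.Perm (Fin s), (∀ j, w (σ j) = w j) ∧
      (fun j => u (σ j)) = v := by
    intro v
    rw [hO, Finset.mem_image]
    constructor
    · rintro ⟨σ, h2, h3⟩
      exact ⟨σ, (Finset.mem_filter.1 h2).2, h3⟩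
    · rintro ⟨σ, h2, h3⟩
      exact ⟨σ, Finset.mem_filter.2 ⟨Finset.mem_univ _, h2⟩, h3⟩
  have key : ∀ v ∈ O, ∃ G' : MvPolynomial (Fin 3) K, Rig P G' e v ∧ G' * G' ∣ f := by
    intro v hv
    obtain ⟨σ, h2, rfl⟩ := (hmemO v).1 hv
    exact conj_dvd hP h1 hf hf0 hR hh σ h2
  choose! Gf hGf using key
  have hle : ∀ v ∈ O, ∀ v' ∈ O, Gf v ∣ Gf v' → ∀ j, v j ≤ v' j := by
    intro v hv v' hv' hd j
    obtain ⟨y, hy⟩ := hd
    refine le_of_van (f := Gf v') ?_ ((hGf v' hv').1.ord j)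
    rw [hy]
    exact Ideal.mul_mem_right _ _ ((hGf v hv).1.ord j).1
  have hrel : ∀ v ∈ O, ∀ v' ∈ O, v ≠ v' → IsRelPrime (Gf v) (Gf v') := by
    intro v hv v' hv' hne
    rw [(hGf v hv).1.irr.isRelPrime_iff_not_dvd]
    intro hd
    have has := ((hGf v hv).1.irr.dvd_irreducible_iff_associated (hGf v' hv').1.irr).1 hd
    apply hne
    funext j
    exact le_antisymm (hle v hv v' hv' hd j) (hle v' hv' v hv has.symm.dvd j)
  obtain ⟨F, hF⟩ : ∃ F, F = ∏ v ∈ O, Gf v := ⟨_, rfl⟩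
  have hFF : F * F ∣ f := by
    rw [hF, ← Finset.prod_mul_distrib]
    refine Finset.prod_dvd_of_isRelPrime ?_ fun v hv => (hGf v hv).2
    intro v hv v' hv' hne
    have h2 := hrel v hv v' hv' hne
    exact (h2.mul_right h2).mul_left (h2.mul_right h2)
  obtain ⟨g, hg⟩ := hFF
  have hOu : u ∈ O := (hmemO u).2 ⟨1, fun j => rfl, rfl⟩
  refine ⟨∑ v ∈ O, e, fun j => ∑ v ∈ O, v j, F, g, ?_, ?_, ?_, ?_, ?_, ?_⟩
  · exact Finset.sum_pos (fun v _ => deg_pos hR.irr hR.hom) ⟨u, hOu⟩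
  · rw [hF]
    exact Finset.squarefree_prod_of_pairwise_isCoprime
      (fun v hv v' hv' hne => hrel v hv v' hv' hne) fun v hv => (hGf v hv).1.irr.squarefree
  · rw [hg, mul_assoc]
  · rw [hF]
    exact IsHomogeneous.prod _ _ _ fun v hv => (hGf v hv).1.hom
  · intro j
    rw [hF]
    exact ord_prod _ _ _ _ fun v hv => (hGf v hv).1.ord j
  · intro σ hσ j
    refine Finset.sum_nbij (fun v => fun i => v (σ i)) ?_ ?_ ?_ fun v _ => rfl
    · intro v hv
      obtain ⟨τ, h2, rfl⟩ := (hmemO v).1 hv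
      exact (hmemO _).2 ⟨σ.trans τ, fun i => by
        rw [Equiv.trans_apply, h2, hσ], rfl⟩
    · intro v _ v' _ hvv
      funext i
      have := congrFun hvv (σ.symm i)
      simpa using this
    · intro v hv
      obtain ⟨τ, h2, rfl⟩ := (hmemO v).1 hv
      refine ⟨fun i => u (τ (σ.symm i)), (hmemO _).2 ⟨σ.symm.trans τ, fun i => ?_, rfl⟩, ?_⟩
      · rw [Equiv.trans_apply, h2]
        have := hσ (σ.symm i)
        rw [σ.apply_symm_apply] at this
        exact this.symm
      · funext i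
        simp

end Pool.Agent.U479.DP
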