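import Pool.Agent.U479.DP.Core
import Pool.Agent.Y939.NC.Reg
import Pool.Agent.Y205.AV.Inf0

set_option autoImplicit false

/-!
# Double and simple points added to a symmetric nonspecial family
-/

namespace Pool.Agent.U479.DP

open MvPolynomial Pool.Agent.W609 Pool.Agent.W609.CR Pool.Agent.TH167.SH Pool.Agent.TH167.TT
  Pool.Agent.H932R3

/-- All vectors `v ≤ b` which are constant on the level sets of `b` are nonspecial in every
degree. -/
def SymBase {k : ℕ} (b : Fin k → ℕ) : Prop :=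
  ∀ v : Fin k → ℕ, (∀ i j, b i = b j → v i = v j) → (∀ i, v i ≤ b i) →
    ∀ (e : ℕ) {K : Type} [Field K] [CharZero K] {P : Fin k → Fin 2 → K},
      AlgebraicIndependent ℚ (fun ij : Fin k × Fin 2 => P ij.1 ij.2) → ExpDim K v P e

theorem base_of {k n : ℕ} {b : Fin k → ℕ} (hb : SymBase b) (e : Fin k ↪ Fin n) {w : Fin n → ℕ}
    (hw : ∀ j, w (e j) = b j) : Base w (Finset.univ.map e) := by
  intro v hv hsym hle d K _ _ P hP hpos
  obtain ⟨F, hF, hF'⟩ := Pool.Agent.TH442.NF.to_open (d := d) (w := fun j => v (e j))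
    (fun {K'} _ _ P' hP' => hb (fun j => v (e j)) (fun i j hij =>
      hsym _ (Finset.mem_map_of_mem _ (Finset.mem_univ i)) _
        (Finset.mem_map_of_mem _ (Finset.mem_univ j)) (by rw [hw, hw, hij]))
      (fun j => by
        have := hle (e j) (Finset.mem_map_of_mem _ (Finset.mem_univ j))
        rwa [hw] at this) d hP')
  have h2 := Pool.Agent.TH885.CO.exp_plus e (w := v) (d := d) hv
    ⟨F, hF, fun Q hQ => hF' Q hQ⟩ hP
  rw [chi_cast]
  omega

/-- **Double and simple points are free.**  If all symmetric vectors on the `k` points are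
nonspecial, then so are all vectors which agree with `b` on these points and are at most `2` at the
others. -/
theorem free {k n : ℕ} {b : Fin k → ℕ} (hb : SymBase b) (hk : 0 < k) (hb1 : ∀ i, 1 ≤ b i)
    (h10 : ∀ i, 10 ≤ (Finset.univ.filter fun j => b j = b i).card) (e : Fin k ↪ Fin n)
    {w : Fin n → ℕ} (hw : ∀ j, w (e j) = b j) (hw2 : ∀ i, i ∉ Finset.univ.map e → w i ≤ 2)
    {K : Type} [Field K] [CharZero K] {P : Fin n → Fin 2 → K}
    (hP : AlgebraicIndependent ℚ (fun ij : Fin n × Fin 2 => P ij.1 ij.2)) (d : ℕ) :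
    (Module.finrank K ↥(VS (fun j => aff (P j)) w d) : ℤ) = max 0 (chi d w) := by
  classical
  have hle := chi_le_dim P d w
  rcases Nat.eq_zero_or_pos (Module.finrank K ↥(VS (fun j => aff (P j)) w d)) with h0 | hpos
  · rw [h0] at hle ⊢
    rw [max_eq_left (by exact_mod_cast hle)]
    rfl
  obtain ⟨N, hN⟩ : ∃ N, Module.finrank K ↥(VS (fun j => aff (P j)) w d) = N + 1 :=
    ⟨Module.finrank K ↥(VS (fun j => aff (P j)) w d) - 1, by omega⟩
  obtain ⟨K0, i1, i2, P0, hP0⟩ := exists_generic (n + N)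
  obtain ⟨P1, hP1⟩ : ∃ P1 : Fin n → Fin 2 → K0, P1 = fun j => P0 (Fin.castAdd N j) := ⟨_, rfl⟩
  have hP0' : AlgebraicIndependent ℚ (fun ij : Fin n × Fin 2 => P1 ij.1 ij.2) := by
    have h := hP0.comp (fun ij : Fin n × Fin 2 => (Fin.castAdd N ij.1, ij.2)) (by
        rintro ⟨a, b⟩ ⟨a', b'⟩ h
        have h1 := congrArg Prod.fst h
        have h2 := congrArg Prod.snd h
        exact Prod.ext (Fin.castAdd_injective n N h1) h2)
    rw [hP1]
    exact h
  have h5 := gen_eq hP0' hP w d
  obtain ⟨w', hw'⟩ : ∃ w' : Fin (n + N) → ℕ, w' = Fin.append w (fun _ : Fin N => 0) := ⟨_, rfl⟩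
  have hl : ∀ i : Fin n, w' (Fin.castAdd N i) = w i := fun i => by rw [hw', Fin.append_left]
  have hr : ∀ i : Fin N, w' (Fin.natAdd n i) = 0 := fun i => by rw [hw', Fin.append_right]
  have h6 : VS (fun j => aff (P0 j)) w' d = VS (fun j => aff (P1 j)) w d := by
    ext f
    rw [mem_VS, mem_VS]
    refine and_congr_right fun _ => ?_
    constructor
    · intro h j
      have h7 := h (Fin.castAdd N j)
      rw [hl] at h7
      rw [hP1]
      exact h7
    · intro h j
      refine Fin.addCases (fun i => ?_) (fun i => ?_) j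
      · have h7 := h i
        rw [hP1] at h7
        rw [hl]
        exact h7
      · rw [hr]
        exact van_zero _ _
  obtain ⟨e', he'⟩ : ∃ e' : Fin k ↪ Fin (n + N), e' = e.trans (Fin.castAddEmb N) := ⟨_, rfl⟩
  have he'a : ∀ j, e' j = Fin.castAdd N (e j) := fun j => by rw [he']; rfl
  have hwe : ∀ j, w' (e' j) = b j := fun j => by rw [he'a, hl, hw]
  have hnot : ∀ i : Fin N, Fin.natAdd n i ∉ Finset.univ.map e' := by
    intro i hi
    obtain ⟨j, -, hj⟩ := Finset.mem_map.1 hi
    rw [he'a] at hj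
    have h1 := congrArg Fin.val hj
    rw [Fin.val_castAdd, Fin.val_natAdd] at h1
    have := (e j).2
    omega
  have key := coren hP0 (d := d) (S := Finset.univ.map e')
    ⟨e' ⟨0, hk⟩, Finset.mem_map_of_mem _ (Finset.mem_univ _)⟩ N w' (base_of hb e' hwe) (by
      intro i hi
      obtain ⟨j, -, rfl⟩ := Finset.mem_map.1 hi
      refine (h10 j).trans ?_
      rw [← Finset.card_map e']
      apply Finset.card_le_card
      intro l hl2
      obtain ⟨a, ha, rfl⟩ := Finset.mem_map.1 hl2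
      rw [Finset.mem_filter]
      refine ⟨Finset.mem_map_of_mem _ (Finset.mem_univ _), ?_⟩
      rw [hwe, hwe]
      exact (Finset.mem_filter.1 ha).2) (by
      intro i hi
      obtain ⟨j, -, rfl⟩ := Finset.mem_map.1 hi
      rw [hwe]
      exact hb1 j) (by
      intro j
      refine Fin.addCases (fun i => ?_) (fun i => ?_) j
      · intro hi
        rw [hl]
        refine hw2 i fun h => hi ?_
        obtain ⟨a, -, ha⟩ := Finset.mem_map.1 h
        rw [← ha, ← he'a]
        exact Finset.mem_map_of_mem _ (Finset.mem_univ _)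
      · intro _
        rw [hr]
        exact Nat.zero_le _) (by
      have h1 : (Finset.univ : Finset (Fin N)).map (Fin.natAddEmb n) ⊆
          Finset.univ.filter fun j => j ∉ Finset.univ.map e' ∧ w' j = 0 := by
        intro j hj
        obtain ⟨i, -, rfl⟩ := Finset.mem_map.1 hj
        rw [Finset.mem_filter]
        exact ⟨Finset.mem_univ _, hnot i, hr i⟩
      have h2 := Finset.card_le_card h1
      rwa [Finset.card_map, Finset.card_univ, Fintype.card_fin] at h2)
    (by rw [h6, h5, hN])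
  have h7 : chi d w' = chi d w := by
    rw [chi_cast, chi_cast]
    congr 2
    rw [Fin.sum_univ_add]
    have h8 : ∑ i : Fin N, (w' (Fin.natAdd n i) + 1).choose 2 = 0 :=
      Finset.sum_eq_zero fun i _ => by rw [hr]; rfl
    rw [h8, add_zero]
    exact Finset.sum_congr rfl fun i _ => by rw [hl]
  rw [h7] at key
  rw [key, hN, max_eq_right (by positivity)]
  push_cast
  rfl

theorem exp_zero {k : ℕ} {K : Type} [Field K] [CharZero K] {P : Fin k → Fin 2 → K}
    (hP : AlgebraicIndependent ℚ (fun ij : Fin k × Fin 2 => P ij.1 ij.2)) {v : Fin k → ℕ}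
    (hv : ∀ i, v i = 0) (e : ℕ) : ExpDim K v P e := by
  have h1 := sum_le_dim (inj_of_alg hP) v (d := e) (by
    rw [Finset.sum_eq_zero fun j _ => hv j]
    exact Nat.zero_le _)
  have h2 := chi_le_dim P e v
  rw [chi_cast] at h2
  have h3 : Module.finrank K ↥(Pool.Agent.TH167.SHDefs.sys P e v) =
      (e + 2).choose 2 - ∑ j, (v j + 1).choose 2 := by
    rw [Pool.Agent.TH885.CO.sys_eq]
    have h4 : ∑ j, (v j + 1).choose 2 = 0 :=
      Finset.sum_eq_zero fun i _ => by rw [hv]; rfl
    omega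
  exact h3

/-- equal multiplicities -/
theorem symBase_const {k M : ℕ} (hk : k = 13 ∨ k = 21 ∨ 36 ≤ k ∨ (10 ≤ k ∧ ∃ δ κ : ℕ, 2 ≤ δ ∧
    k = δ ^ 2 + 2 * κ ∧ (κ = 0 ∨ k * (M * (M + 1)) < δ ^ 2 * (δ ^ 2 + 3) * (δ ^ 2 + 4))))
    {b : Fin k → ℕ} (hb : ∀ i, b i = M) : SymBase b := by
  obtain ⟨N0, hN0⟩ := Pool.Agent.Y939.NC.reg_exp
  intro v hv hle e K _ _ P hP
  have hk0 : 0 < k := by omega
  obtain ⟨A, hA⟩ : ∃ A, A = v ⟨0, hk0⟩ := ⟨_, rfl⟩
  have hvA : ∀ i, v i = A := fun i => by rw [hA]; exact hv _ _ (by rw [hb, hb])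
  rcases Nat.eq_zero_or_pos A with h0 | h0
  · exact exp_zero hP (fun i => by rw [hvA, h0]) e
  · by_cases hsm : 10 ≤ k ∧ ∃ δ κ : ℕ, 2 ≤ δ ∧ k = δ ^ 2 + 2 * κ ∧
        (κ = 0 ∨ k * (M * (M + 1)) < δ ^ 2 * (δ ^ 2 + 3) * (δ ^ 2 + 4))
    · obtain ⟨h10, δ, κ, hδ, hk1, hκ⟩ := hsm
      obtain ⟨F, hF, hF'⟩ := near_points (L := K) (n := k) (m := A) h10 h0 (w := v)
        (fun i => Or.inl (hvA i)) (near_cond (by omega) (fun i => Or.inl (hvA i))
          (Or.inr ⟨δ, κ, hδ, hk1, hκ.imp_right fun h1 => by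
            refine lt_of_le_of_lt ?_ h1
            rw [Finset.sum_congr rfl fun i _ => by rw [hvA i], Finset.sum_const, Finset.card_univ,
              Fintype.card_fin, smul_eq_mul]
            have h2 : A ≤ M := by
              have := hle ⟨0, hk0⟩
              rwa [hb, hvA] at this
            exact Nat.mul_le_mul_left _ (Nat.mul_le_mul h2 (Nat.succ_le_succ h2))⟩))
      exact hF' P (fun h => hF (hP.eq_zero_of_aeval_eq_zero F h)) e
    have hreg : Pool.Agent.Y939.NC.Regular N0 v := by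
      have hk' : k = 13 ∨ k = 21 ∨ 36 ≤ k := by
        rcases hk with h | h | h | h
        · exact Or.inl h
        · exact Or.inr (Or.inl h)
        · exact Or.inr (Or.inr h)
        · exact absurd h hsm
      rcases hk' with rfl | rfl | h
      · exact Or.inr (Or.inl ⟨Or.inr (Or.inr ⟨0, Or.inr (Or.inr rfl)⟩), A, h0,
          fun i => Or.inl (hvA i)⟩)
      · exact Or.inl ⟨Or.inr rfl, A, h0, hvA⟩
      · rcases Nat.lt_or_ge k 37 with h1 | h1
        · have h2 : k = 36 := by omega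
          subst h2
          exact Or.inr (Or.inl ⟨Or.inr (Or.inr ⟨0, Or.inr (Or.inl rfl)⟩), A, h0,
            fun i => Or.inl (hvA i)⟩)
        · exact Or.inl ⟨Or.inl h1, A, h0, hvA⟩
    obtain ⟨F, hF, hF'⟩ := hN0 k v hreg K
    exact hF' P (fun h => hF (hP.eq_zero_of_aeval_eq_zero F h)) e

/-- several multiplicities, each of them frequent -/
theorem symBase_many {k : ℕ} {b : Fin k → ℕ}
    (hb : ∀ i, 40000 * (Finset.univ.image b).card ≤
      (Finset.univ.filter fun j => b j = b i).card) : SymBase b := by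
  classical
  intro v hv _ e K _ _ P hP
  by_cases h0 : ∀ i, v i = 0
  · exact exp_zero hP h0 e
  push Not at h0
  obtain ⟨p, hp⟩ := h0
  obtain ⟨p0, -, hp0⟩ := Finset.exists_max_image Finset.univ v ⟨p, Finset.mem_univ p⟩
  have hcard : ((Finset.univ.image v).erase 0).card ≤ (Finset.univ.image b).card := by
    refine (Finset.card_le_card (Finset.erase_subset _ _)).trans ?_
    have h1 : Finset.univ.image v ⊆ (Finset.univ.image b).image
        (fun x => if h : ∃ i, b i = x then v h.choose else 0) := by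
      intro y hy
      obtain ⟨i, -, rfl⟩ := Finset.mem_image.1 hy
      rw [Finset.mem_image]
      refine ⟨b i, Finset.mem_image_of_mem _ (Finset.mem_univ _), ?_⟩
      have h2 : ∃ l, b l = b i := ⟨i, rfl⟩
      rw [dif_pos h2]
      exact hv _ _ h2.choose_spec
    exact (Finset.card_le_card h1).trans Finset.card_image_le
  obtain ⟨F, hF, hF'⟩ := Pool.Agent.Y205.AV.inf_all0 (w := v) (μ := v p0) ⟨p, hp⟩
    (fun i => hp0 i (Finset.mem_univ i)) hcard (by
      have h1 : ∑ j ∈ Finset.univ.filter (fun j => b j = b p0), v j ^ 2 ≤ ∑ j, v j ^ 2 :=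
        Finset.sum_le_univ_sum_of_nonneg fun _ => Nat.zero_le _
      rw [Finset.sum_congr rfl (fun l hl => by
        rw [hv l p0 (Finset.mem_filter.1 hl).2]), Finset.sum_const, smul_eq_mul] at h1
      exact (Nat.mul_le_mul_right _ (hb p0)).trans h1)
  exact hF' P (fun h => hF (hP.eq_zero_of_aeval_eq_zero F h)) e

/-- The multiplicities `≥ 3` of `w` are known: there is only one, `M`, taken `k = 13`, `21` or at
least `36` times, or `k = δ ^ 2 + 2 κ ≥ 10` times with `κ = 0` or
`k M (M + 1) < δ ^ 2 (δ ^ 2 + 3) (δ ^ 2 + 4)`, or there are `r ≥ 1` of them, each taken at least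
`40000 r` times. -/
def Frequent {n : ℕ} (w : Fin n → ℕ) : Prop :=
  (∃ k M, 3 ≤ M ∧ (∀ i, w i = M ∨ w i ≤ 2) ∧ (Finset.univ.filter fun i => w i = M).card = k ∧
    (k = 13 ∨ k = 21 ∨ 36 ≤ k ∨ (10 ≤ k ∧ ∃ δ κ : ℕ, 2 ≤ δ ∧
      k = δ ^ 2 + 2 * κ ∧ (κ = 0 ∨ k * (M * (M + 1)) < δ ^ 2 * (δ ^ 2 + 3) * (δ ^ 2 + 4))))) ∨
  ((∃ i, 3 ≤ w i) ∧ ∀ i, 3 ≤ w i →
    40000 * ((Finset.univ.filter fun j => 3 ≤ w j).image w).card ≤
      (Finset.univ.filter fun j => w j = w i).card)

theorem frequent_gen {n : ℕ} {w : Fin n → ℕ} (hw : Frequent w) {K : Type} [Field K] [CharZero K]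
    {P : Fin n → Fin 2 → K}
    (hP : AlgebraicIndependent ℚ (fun ij : Fin n × Fin 2 => P ij.1 ij.2)) (d : ℕ) :
    (Module.finrank K ↥(VS (fun j => aff (P j)) w d) : ℤ) = max 0 (chi d w) := by
  classical
  obtain ⟨T, hT⟩ : ∃ T : Finset (Fin n), T = Finset.univ.filter fun j => 3 ≤ w j := ⟨_, rfl⟩
  have hmT : ∀ j, j ∈ T ↔ 3 ≤ w j := fun j => by rw [hT]; simp
  obtain ⟨k, hk⟩ : ∃ k, T.card = k := ⟨_, rfl⟩
  obtain ⟨e, he⟩ : ∃ e : Fin k ↪ Fin n, e = (T.orderEmbOfFin hk).toEmbedding := ⟨_, rfl⟩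
  have hmap : Finset.univ.map e = T := by
    rw [he]
    exact Finset.map_orderEmbOfFin_univ T hk
  have heT : ∀ j, e j ∈ T := fun j => by
    have h := Finset.mem_map_of_mem e (Finset.mem_univ j)
    rwa [hmap] at h
  have hb1 : ∀ j, 1 ≤ w (e j) := fun j => by
    have := (hmT _).1 (heT j)
    omega
  have hcardT : ∀ i, 3 ≤ w i → (Finset.univ.filter fun j => w j = w i).card =
      (T.filter fun j => w j = w i).card := by
    intro i hi
    congr 1
    ext j
    rw [Finset.mem_filter, Finset.mem_filter, hmT]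
    constructor
    · rintro ⟨-, h⟩
      exact ⟨by rw [h]; exact hi, h⟩
    · rintro ⟨-, h⟩
      exact ⟨Finset.mem_univ _, h⟩
  have hcard : ∀ i : Fin k, (Finset.univ.filter fun j => w (e j) = w (e i)).card =
      (Finset.univ.filter fun j => w j = w (e i)).card := by
    intro i
    rw [hcardT _ ((hmT _).1 (heT i)), ← hmap, ← Finset.card_map e]
    congr 1
    ext j
    rw [Finset.mem_map, Finset.mem_filter, Finset.mem_map]
    constructor
    · rintro ⟨a, ha, rfl⟩
      exact ⟨⟨a, Finset.mem_univ _, rfl⟩, (Finset.mem_filter.1 ha).2⟩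
    · rintro ⟨⟨a, -, rfl⟩, h⟩
      exact ⟨a, Finset.mem_filter.2 ⟨Finset.mem_univ _, h⟩, rfl⟩
  have hw2 : ∀ i, i ∉ Finset.univ.map e → w i ≤ 2 := by
    intro i hi
    rw [hmap, hmT] at hi
    omega
  rcases hw with ⟨k0, M, hM, h1, rfl, h2⟩ | ⟨⟨i0, hi0⟩, h2⟩
  · have hTM : (Finset.univ.filter fun i => w i = M) = T := by
      ext j
      rw [Finset.mem_filter, hmT]
      constructor
      · rintro ⟨-, h⟩
        omega
      · intro h
        rcases h1 j with h3 | h3
        · exact ⟨Finset.mem_univ _, h3⟩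
        · omega
    rw [hTM, hk] at h2
    have hbM : ∀ j, w (e j) = M := by
      intro j
      have h3 := heT j
      rw [← hTM, Finset.mem_filter] at h3
      exact h3.2
    refine free (b := fun j => w (e j)) (symBase_const h2 hbM) (by omega) hb1 ?_ e
      (fun j => rfl) hw2 hP d
    intro i
    rw [Finset.filter_true_of_mem fun j _ => by rw [hbM, hbM], Finset.card_univ,
      Fintype.card_fin]
    omega
  · have himg : (Finset.univ.image fun j => w (e j)) = T.image w := by
      rw [← hmap]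
      ext y
      rw [Finset.mem_image, Finset.mem_image]
      constructor
      · rintro ⟨a, -, rfl⟩
        exact ⟨e a, Finset.mem_map_of_mem _ (Finset.mem_univ _), rfl⟩
      · rintro ⟨a, ha, rfl⟩
        obtain ⟨c, -, rfl⟩ := Finset.mem_map.1 ha
        exact ⟨c, Finset.mem_univ _, rfl⟩
    have hT0 : 0 < k := by
      rw [← hk]
      exact Finset.card_pos.2 ⟨i0, (hmT _).2 hi0⟩
    have himg0 : 1 ≤ (T.image w).card :=
      Finset.card_pos.2 ⟨w i0, Finset.mem_image_of_mem _ ((hmT _).2 hi0)⟩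
    rw [← hT] at h2
    refine free (b := fun j => w (e j)) (symBase_many fun i => ?_) hT0 hb1 ?_ e
      (fun j => rfl) hw2 hP d
    · rw [himg, hcard i]
      exact h2 _ ((hmT _).1 (heT i))
    · intro i
      have h3 := h2 _ ((hmT _).1 (heT i))
      have h4 := hcard i
      beta_reduce
      omega

/-- The statement with truncated subtraction. -/
theorem frequent_exp {n : ℕ} {w : Fin n → ℕ} (hw : Frequent w) {K : Type} [Field K] [CharZero K]
    {P : Fin n → Fin 2 → K}
    (hP : AlgebraicIndependent ℚ (fun ij : Fin n × Fin 2 => P ij.1 ij.2)) (d : ℕ) :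
    ExpDim K w P d := by
  have h1 := frequent_gen hw hP d
  rw [chi_cast] at h1
  have h3 : Module.finrank K ↥(Pool.Agent.TH167.SHDefs.sys P d w) =
      (d + 2).choose 2 - ∑ j, (w j + 1).choose 2 := by
    rw [Pool.Agent.TH885.CO.sys_eq]
    omega
  exact h3

end Pool.Agent.U479.DP
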