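import Pool.Agent.TH167.TT.Core2
import Pool.Agent.TH167.TT.Semi
import Pool.Agent.TH167.TT.Move

set_option autoImplicit false

/-!
# Multiple components of rigid systems and their conjugates under permutations of generic points
-/

namespace Pool.Agent.U479.DP

open MvPolynomial Pool.Agent.W609 Pool.Agent.W609.CR Pool.Agent.TH167.SH Pool.Agent.TH167.TT

/-- The dimension at generic points is invariant under permutations of the multiplicities. -/
theorem perm_dim {K : Type} [Field K] [CharZero K] {s : ℕ} {P : Fin s → Fin 2 → K}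
    (hP : AlgebraicIndependent ℚ (fun ij : Fin s × Fin 2 => P ij.1 ij.2))
    (σ : Equiv.Perm (Fin s)) (v : Fin s → ℕ) (e : ℕ) :
    Module.finrank K ↥(VS (fun j => aff (P j)) (fun j => v (σ j)) e) =
      Module.finrank K ↥(VS (fun j => aff (P j)) v e) := by
  obtain ⟨P1, hP1⟩ : ∃ P1 : Fin s → Fin 2 → K, P1 = fun j => P (σ.symm j) := ⟨_, rfl⟩
  have h1 : AlgebraicIndependent ℚ (fun ij : Fin s × Fin 2 => P1 ij.1 ij.2) := by
    have h2 := hP.comp (fun ij : Fin s × Fin 2 => (σ.symm ij.1, ij.2)) (by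
      rintro ⟨a, b⟩ ⟨a', b'⟩ h
      have e1 := congrArg Prod.fst h
      have e2 := congrArg Prod.snd h
      exact Prod.ext (σ.symm.injective e1) e2)
    rw [hP1]
    exact h2
  have h3 : VS (fun j => aff (P j)) (fun j => v (σ j)) e = VS (fun j => aff (P1 j)) v e := by
    ext f
    rw [mem_VS, mem_VS]
    refine and_congr_right fun _ => ?_
    constructor
    · intro h j
      have h4 := h (σ.symm j)
      beta_reduce at h4
      rw [σ.apply_symm_apply] at h4
      rw [hP1]
      exact h4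
    · intro h j
      have h4 := h (σ j)
      rw [hP1] at h4
      beta_reduce at h4
      rw [σ.symm_apply_apply] at h4
      exact h4
  rw [h3]
  exact gen_eq h1 hP v e

/-- A nonzero form of positive degree is not a unit. -/
theorem not_unit {K : Type} [Field K] {f : MvPolynomial (Fin 3) K} {e : ℕ} (he : 0 < e)
    (hf : f.IsHomogeneous e) (hf0 : f ≠ 0) : ¬ IsUnit f := by
  intro h
  have h1 := (isUnit_iff_totalDegree_of_isReduced.1 h).2
  rw [hf.totalDegree hf0] at h1
  omega

/-- A nonzero form which is not a unit has positive degree. -/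
theorem pos_of_not_unit {K : Type} [Field K] {f : MvPolynomial (Fin 3) K} {e : ℕ}
    (hf : f.IsHomogeneous e) (hf0 : f ≠ 0) (hu : ¬ IsUnit f) : 0 < e := by
  rcases Nat.eq_zero_or_pos e with h | h
  · exfalso
    apply hu
    subst h
    have h1 := hf.totalDegree hf0
    rw [totalDegree_eq_zero_iff_eq_C] at h1
    rw [h1]
    have h2 : coeff 0 f ≠ 0 := fun h3 => hf0 (by rw [h1, h3, C_0])
    exact (IsUnit.mk0 _ h2).map C
  · exact h

/-- `C` is an irreducible form of degree `e` with multiplicities exactly `u`, and the only form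
with these multiplicities up to constants. -/
structure Rig {K : Type} [Field K] {s : ℕ} (P : Fin s → Fin 2 → K) (G : MvPolynomial (Fin 3) K)
    (e : ℕ) (u : Fin s → ℕ) : Prop where
  irr : Irreducible G
  hom : G.IsHomogeneous e
  ord : ∀ j, Ord (aff (P j)) (u j) G
  dim : Module.finrank K ↥(VS (fun j => aff (P j)) u e) = 1

theorem Rig.mem {K : Type} [Field K] {s : ℕ} {P : Fin s → Fin 2 → K}
    {G : MvPolynomial (Fin 3) K} {e : ℕ} {u : Fin s → ℕ} (h : Rig P G e u) :
    G ∈ VS (fun j => aff (P j)) u e :=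
  (mem_VS _ _ _ _).2 ⟨h.hom, fun j => (h.ord j).1⟩

/-- two nonzero members of a one-dimensional space -/
theorem eq_smul {K : Type} [Field K] {s : ℕ} {P : Fin s → Fin 2 → K} {u : Fin s → ℕ} {e : ℕ}
    (h1 : Module.finrank K ↥(VS (fun j => aff (P j)) u e) = 1) {f g : MvPolynomial (Fin 3) K}
    (hf : f ∈ VS (fun j => aff (P j)) u e) (hf0 : f ≠ 0)
    (hg : g ∈ VS (fun j => aff (P j)) u e) : ∃ c : K, g = C c * f := by
  have h2 : (⟨f, hf⟩ : ↥(VS (fun j => aff (P j)) u e)) ≠ 0 :=
    fun h => hf0 (congrArg Subtype.val h)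
  obtain ⟨c, hc⟩ := exists_smul_eq_of_finrank_eq_one h1 h2 ⟨g, hg⟩
  refine ⟨c, ?_⟩
  have h3 : c • f = g := congrArg Subtype.val hc
  rw [← h3, smul_eq_C_mul]

/-- The conjugates of a rigid irreducible curve. -/
theorem Rig.perm {K : Type} [Field K] [CharZero K] {s : ℕ} {P : Fin s → Fin 2 → K}
    (hP : AlgebraicIndependent ℚ (fun ij : Fin s × Fin 2 => P ij.1 ij.2))
    {G : MvPolynomial (Fin 3) K} {e : ℕ} {u : Fin s → ℕ} (h : Rig P G e u)
    (σ : Equiv.Perm (Fin s)) : ∃ G' : MvPolynomial (Fin 3) K, Rig P G' e (fun j => u (σ j)) := by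
  classical
  have hdim : Module.finrank K ↥(VS (fun j => aff (P j)) (fun j => u (σ j)) e) = 1 := by
    rw [perm_dim hP σ u e]
    exact h.dim
  obtain ⟨G', hG', hG'0⟩ := exists_mem (by rw [hdim]; exact one_pos)
  have hord := fun j => exact_ord hP hdim hG' hG'0 j
  have hhom := ((mem_VS _ _ _ _).1 hG').1
  have he := deg_pos h.irr h.hom
  refine ⟨G', ⟨⟨not_unit he hhom hG'0, ?_⟩, hhom, hord, hdim⟩⟩
  intro A B hAB
  by_contra hcon
  push Not at hcon
  obtain ⟨hA, hB⟩ := hcon
  have hA0 : A ≠ 0 := fun h0 => hG'0 (by rw [hAB, h0, zero_mul])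
  have hB0 : B ≠ 0 := fun h0 => hG'0 (by rw [hAB, h0, mul_zero])
  have hAh := Pool.Agent.Chud.homog_of_dvd hhom hG'0 (Dvd.intro _ hAB.symm)
  have hBh := Pool.Agent.Chud.homog_of_dvd hhom hG'0 (Dvd.intro_left _ hAB.symm)
  have hap := pos_of_not_unit hAh hA0 hA
  have hbp := pos_of_not_unit hBh hB0 hB
  choose α hα using fun j => exists_ord (p := P j) hA0 hAh
  choose β hβ using fun j => exists_ord (p := P j) hB0 hBh
  have hαβ : ∀ j, α j + β j = u (σ j) := by
    intro j
    have h1 := ord_mul (hα j) (hβ j)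
    rw [← hAB] at h1
    exact ord_unique h1 (hord j)
  have hdeg : A.totalDegree + B.totalDegree = e := by
    have h1 := hAh.mul hBh
    rw [← hAB] at h1
    exact h1.inj_right hhom hG'0
  have p1 : 0 < Module.finrank K ↥(VS (fun j => aff (P j)) (fun j => α (σ.symm j))
      A.totalDegree) := by
    rw [perm_dim hP σ.symm α]
    exact pos_of_mem ((mem_VS _ _ _ _).2 ⟨hAh, fun j => (hα j).1⟩) hA0
  have p2 : 0 < Module.finrank K ↥(VS (fun j => aff (P j)) (fun j => β (σ.symm j))
      B.totalDegree) := by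
    rw [perm_dim hP σ.symm β]
    exact pos_of_mem ((mem_VS _ _ _ _).2 ⟨hBh, fun j => (hβ j).1⟩) hB0
  obtain ⟨A', hA', hA'0⟩ := exists_mem p1
  obtain ⟨B', hB', hB'0⟩ := exists_mem p2
  rw [mem_VS] at hA' hB'
  have hm : A' * B' ∈ VS (fun j => aff (P j)) u e := by
    rw [mem_VS]
    refine ⟨?_, fun j => ?_⟩
    · have := hA'.1.mul hB'.1
      rwa [hdeg] at this
    · have h1 := van_mul (hA'.2 j) (hB'.2 j)
      have h2 := hαβ (σ.symm j)
      rw [σ.apply_symm_apply] at h2
      rwa [h2] at h1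
  obtain ⟨c, hc⟩ := eq_smul h.dim h.mem h.irr.ne_zero hm
  have hc0 : c ≠ 0 := by
    intro h0
    rw [h0, C_0, zero_mul] at hc
    exact mul_ne_zero hA'0 hB'0 hc
  have hunit : IsUnit (C c : MvPolynomial (Fin 3) K) := (IsUnit.mk0 _ hc0).map C
  have hirr : Irreducible (A' * B') := by
    rw [hc]
    exact (irreducible_isUnit_mul hunit).2 h.irr
  rcases hirr.isUnit_or_isUnit rfl with h1 | h1
  · exact not_unit hap hA'.1 hA'0 h1
  · exact not_unit hbp hB'.1 hB'0 h1

end Pool.Agent.U479.DP
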