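import Pool.Agent.U479.DP.Fold
import Pool.Agent.TH167.TT.Tlem
import Pool.Agent.H248R6.Main

set_option autoImplicit false

/-!
# Systems with a reduced member: double points are free
-/

namespace Pool.Agent.U479.DP

open MvPolynomial Pool.Agent.W609 Pool.Agent.W609.CR Pool.Agent.TH167.SH Pool.Agent.TH167.TT

/-- Generic simple points lower the dimension as expected. -/
theorem simple_set {K : Type} [Field K] [CharZero K] {s : ℕ} {P : Fin s → Fin 2 → K}
    (hP : AlgebraicIndependent ℚ (fun ij : Fin s × Fin 2 => P ij.1 ij.2)) {w : Fin s → ℕ} {d : ℕ}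
    (A : Finset (Fin s)) (hA : ∀ j ∈ A, w j = 0) :
    Module.finrank K ↥(VS (fun j => aff (P j)) (fun j => if j ∈ A then 1 else w j) d) =
      Module.finrank K ↥(VS (fun j => aff (P j)) w d) - A.card := by
  classical
  induction A using Finset.induction_on with
  | empty =>
    rw [Finset.card_empty, Nat.sub_zero]
    have e1 : (fun j => if j ∈ (∅ : Finset (Fin s)) then 1 else w j) = w := by
      funext j
      rw [if_neg (Finset.notMem_empty j)]
    rw [e1]
  | insert i A hi ih =>
    have ih' := ih fun j hj => hA j (Finset.mem_insert_of_mem hj)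
    have h0 : (fun j => if j ∈ A then 1 else w j) i = 0 := by
      beta_reduce
      rw [if_neg hi]
      exact hA i (Finset.mem_insert_self i A)
    have e1 : (fun j => if j ∈ insert i A then 1 else w j) =
        Function.update (fun j => if j ∈ A then 1 else w j) i 1 := by
      funext j
      by_cases hj : j = i
      · rw [hj, Function.update_self, if_pos (Finset.mem_insert_self i A)]
      · rw [Function.update_of_ne hj]
        by_cases hjA : j ∈ A
        · rw [if_pos hjA, if_pos (Finset.mem_insert_of_mem hjA)]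
        · rw [if_neg hjA, if_neg]
          rw [Finset.mem_insert]
          push Not
          exact ⟨hj, hjA⟩
    have h1 := simple_le P (w := fun j => if j ∈ A then 1 else w j) h0 d
    rw [e1, Finset.card_insert_of_notMem hi]
    rcases Nat.eq_zero_or_pos (Module.finrank K
      ↥(VS (fun j => aff (P j)) (fun j => if j ∈ A then 1 else w j) d)) with h2 | h2
    · have h3 : Module.finrank K ↥(VS (fun j => aff (P j))
          (Function.update (fun j => if j ∈ A then 1 else w j) i 1) d) ≤
          Module.finrank K ↥(VS (fun j => aff (P j)) (fun j => if j ∈ A then 1 else w j) d) := by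
        have hf := vs_fin (fun j => aff (P j)) (fun j => if j ∈ A then 1 else w j) d
        refine Submodule.finrank_mono (vs_le fun j => ?_)
        by_cases hj : j = i
        · rw [hj, Function.update_self, if_neg hi, hA i (Finset.mem_insert_self i A)]
          exact Nat.zero_le 1
        · rw [Function.update_of_ne hj]
      omega
    · have h3 := simple_drop hP (w := fun j => if j ∈ A then 1 else w j) h0 (d := d) h2
      omega

/-- The points outside `S` impose at most the expected number of conditions. -/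
theorem cond_le {K : Type} [Field K] [CharZero K] {s : ℕ} (P : Fin s → Fin 2 → K) (w : Fin s → ℕ)
    (S : Finset (Fin s)) (d : ℕ) :
    Module.finrank K ↥(VS (fun j => aff (P j)) (fun j => if j ∈ S then w j else 0) d) ≤
      Module.finrank K ↥(VS (fun j => aff (P j)) w d) +
        ∑ j, (if j ∈ S then 0 else (w j + 1).choose 2) := by
  classical
  rw [vs_eq_forms, vs_eq_forms]
  obtain ⟨v, hv⟩ : ∃ v : Fin s → ℕ, v = fun j => if j ∈ S then 0 else w j := ⟨_, rfl⟩
  obtain ⟨V, hV⟩ : ∃ V, V = Pool.Agent.H248R5.forms (fun j => if j ∈ S then w j else 0) P d :=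
    ⟨_, rfl⟩
  rw [← hV]
  have hfin : Module.Finite K ↥V := by
    rw [hV]
    exact Pool.Agent.H248R6.forms_finite _ P d
  have hq : ∀ i, Module.Finite K (Pool.Agent.H248R5.Quo K (v i)) :=
    fun i => Pool.Agent.H248R5.quo_finite (v i)
  let φ : ↥V →ₗ[K] (∀ i, Pool.Agent.H248R5.Quo K (v i)) :=
    LinearMap.pi fun i => (Ideal.Quotient.mkₐ K ((idealOfVars (Fin 2) K) ^ (v i))).toLinearMap ∘ₗ
      (Pool.Agent.H248R5.tau (P i)).toLinearMap ∘ₗ Submodule.subtype _
  have h1 := LinearMap.finrank_range_add_finrank_ker φ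
  have h2 : Pool.Agent.H248R5.forms w P d = (LinearMap.ker φ).map (Submodule.subtype _) := by
    ext G
    rw [Pool.Agent.H248R5.mem_forms, Submodule.mem_map]
    constructor
    · rintro ⟨g1, g2⟩
      refine ⟨⟨G, ?_⟩, ?_, rfl⟩
      · rw [hV, Pool.Agent.H248R5.mem_forms]
        refine ⟨g1, fun i => ?_⟩
        by_cases hi : i ∈ S
        · rw [if_pos hi]
          exact g2 i
        · rw [if_neg hi, pow_zero]
          rw [Ideal.one_eq_top]
          exact Submodule.mem_top
      · rw [LinearMap.mem_ker]
        funext i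
        change Ideal.Quotient.mk _ (Pool.Agent.H248R5.tau (P i) G) = 0
        rw [Ideal.Quotient.eq_zero_iff_mem, hv]
        beta_reduce
        by_cases hi : i ∈ S
        · rw [if_pos hi, pow_zero]
          rw [Ideal.one_eq_top]
          exact Submodule.mem_top
        · rw [if_neg hi]
          exact g2 i
    · rintro ⟨⟨H, hH⟩, g1, rfl⟩
      rw [LinearMap.mem_ker] at g1
      rw [hV, Pool.Agent.H248R5.mem_forms] at hH
      refine ⟨hH.1, fun i => ?_⟩
      by_cases hi : i ∈ S
      · have h3 := hH.2 i
        rw [if_pos hi] at h3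
        exact h3
      · have h3 := congrFun g1 i
        change Ideal.Quotient.mk _ (Pool.Agent.H248R5.tau (P i) H) = 0 at h3
        rw [Ideal.Quotient.eq_zero_iff_mem, hv] at h3
        beta_reduce at h3
        rw [if_neg hi] at h3
        exact h3
  have h3 : Module.finrank K ↥(Pool.Agent.H248R5.forms w P d) =
      Module.finrank K ↥(LinearMap.ker φ) := by
    rw [h2]
    exact LinearEquiv.finrank_eq (Submodule.equivSubtypeMap _ _).symm
  have h4 : Module.finrank K ↥(LinearMap.range φ) ≤ ∑ i, (v i + 1).choose 2 := by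
    refine (Submodule.finrank_le _).trans ?_
    rw [Module.finrank_pi_fintype]
    exact Finset.sum_le_sum fun i _ => Pool.Agent.H248R5.finrank_quo_le (v i)
  have h5 : ∑ i, (v i + 1).choose 2 = ∑ j, (if j ∈ S then 0 else (w j + 1).choose 2) := by
    rw [hv]
    refine Finset.sum_congr rfl fun i _ => ?_
    by_cases hi : i ∈ S
    · simp [hi]
    · simp [hi]
  omega

/-- **Segre's form.**  If a system contains a reduced curve, then the points outside a set `S`
which contains all points of multiplicity `≥ 3` impose independent conditions on the system of the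
points of `S`. Otherwise all members have a fixed double component. -/
theorem segre_eq {s : ℕ} {w : Fin s → ℕ} {S : Finset (Fin s)} (hw2 : ∀ j, j ∉ S → w j ≤ 2) {d : ℕ}
    {K : Type} [Field K] [CharZero K] {P : Fin s → Fin 2 → K}
    (hP : AlgebraicIndependent ℚ (fun ij : Fin s × Fin 2 => P ij.1 ij.2))
    (hpos : 0 < Module.finrank K ↥(VS (fun j => aff (P j)) w d)) :
    Module.finrank K ↥(VS (fun j => aff (P j)) w d) +
        ∑ j, (if j ∈ S then 0 else (w j + 1).choose 2) =
      Module.finrank K ↥(VS (fun j => aff (P j)) (fun j => if j ∈ S then w j else 0) d) ∨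
      ∃ (e : ℕ) (u : Fin s → ℕ), 0 < e ∧ 2 * e ≤ d ∧ (∀ j, 2 * u j ≤ w j) ∧
        Module.finrank K ↥(VS (fun j => aff (P j)) u e) = 1 ∧
        Module.finrank K ↥(VS (fun j => aff (P j)) w d) =
          Module.finrank K ↥(VS (fun j => aff (P j)) (fun j => w j - u j - u j) (d - e - e)) := by
  classical
  obtain ⟨N, hN⟩ : ∃ N, Module.finrank K ↥(VS (fun j => aff (P j)) w d) = N + 1 :=
    ⟨Module.finrank K ↥(VS (fun j => aff (P j)) w d) - 1, by omega⟩
  obtain ⟨K0, i1, i2, P0, hP0⟩ := exists_generic (s + N)
  -- comparison of the points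
  obtain ⟨P1, hP1⟩ : ∃ P1 : Fin s → Fin 2 → K0, P1 = fun j => P0 (Fin.castAdd N j) := ⟨_, rfl⟩
  have hP0' : AlgebraicIndependent ℚ (fun ij : Fin s × Fin 2 => P1 ij.1 ij.2) := by
    have h := hP0.comp (fun ij : Fin s × Fin 2 => (Fin.castAdd N ij.1, ij.2)) (by
        rintro ⟨a, b⟩ ⟨a', b'⟩ h
        have h1 := congrArg Prod.fst h
        have h2 := congrArg Prod.snd h
        exact Prod.ext (Fin.castAdd_injective s N h1) h2)
    rw [hP1]
    exact h
  have hext : ∀ (v : Fin (s + N) → ℕ) (_ : ∀ i : Fin N, v (Fin.natAdd s i) = 0) (c : ℕ),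
      Module.finrank K0 ↥(VS (fun j => aff (P0 j)) v c) =
        Module.finrank K ↥(VS (fun j => aff (P j)) (fun j => v (Fin.castAdd N j)) c) := by
    intro v hv c
    rw [← gen_eq hP0' hP (fun j => v (Fin.castAdd N j)) c]
    have h6 : VS (fun j => aff (P0 j)) v c =
        VS (fun j => aff (P1 j)) (fun j => v (Fin.castAdd N j)) c := by
      ext f
      rw [mem_VS, mem_VS]
      refine and_congr_right fun _ => ?_
      constructor
      · intro h j
        have h7 := h (Fin.castAdd N j)
        rw [hP1]
        exact h7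
      · intro h j
        refine Fin.addCases (fun i => ?_) (fun i => ?_) j
        · have h7 := h i
          rw [hP1] at h7
          exact h7
        · rw [hv]
          exact van_zero _ _
    rw [h6]
  obtain ⟨A, hA⟩ : ∃ A : Finset (Fin (s + N)), A = Finset.univ.map (Fin.natAddEmb s) := ⟨_, rfl⟩
  have hAc : A.card = N := by rw [hA, Finset.card_map, Finset.card_univ, Fintype.card_fin]
  have hAr : ∀ i : Fin N, Fin.natAdd s i ∈ A := fun i => by
    rw [hA]
    exact Finset.mem_map_of_mem (Fin.natAddEmb s) (Finset.mem_univ i)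
  have hAl : ∀ i : Fin s, Fin.castAdd N i ∉ A := fun i hi => by
    rw [hA] at hi
    obtain ⟨j, -, hj⟩ := Finset.mem_map.1 hi
    have h1 := congrArg Fin.val hj
    have h2 : (Fin.natAddEmb s j).val = s + j.val := rfl
    rw [h2, Fin.val_castAdd] at h1
    have := i.2
    omega
  -- the class with simple points
  obtain ⟨w0, hw0⟩ : ∃ w0 : Fin (s + N) → ℕ, w0 = Fin.append w (fun _ : Fin N => 0) := ⟨_, rfl⟩
  have h0l : ∀ i : Fin s, w0 (Fin.castAdd N i) = w i := fun i => by rw [hw0, Fin.append_left]
  have h0r : ∀ i : Fin N, w0 (Fin.natAdd s i) = 0 := fun i => by rw [hw0, Fin.append_right]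
  have hAz : ∀ j ∈ A, w0 j = 0 := fun j hj => by
    rw [hA] at hj
    obtain ⟨i, -, rfl⟩ := Finset.mem_map.1 hj
    exact h0r i
  obtain ⟨w1, hw1⟩ : ∃ w1 : Fin (s + N) → ℕ, w1 = fun j => if j ∈ A then 1 else w0 j := ⟨_, rfl⟩
  have h1l : ∀ i : Fin s, w1 (Fin.castAdd N i) = w i := fun i => by
    rw [hw1]
    beta_reduce
    rw [if_neg (hAl i), h0l]
  have h1r : ∀ i : Fin N, w1 (Fin.natAdd s i) = 1 := fun i => by
    rw [hw1]
    beta_reduce
    rw [if_pos (hAr i)]
  have hd0 : Module.finrank K0 ↥(VS (fun j => aff (P0 j)) w0 d) = N + 1 := by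
    rw [hext w0 h0r d, ← hN]
    have e0 : (fun j => w0 (Fin.castAdd N j)) = w := funext h0l
    rw [e0]
  have hd1 : Module.finrank K0 ↥(VS (fun j => aff (P0 j)) w1 d) = 1 := by
    rw [hw1, simple_set hP0 A hAz, hd0, hAc]
    omega
  obtain ⟨f, hf, hf0⟩ := exists_mem (by rw [hd1]; exact one_pos)
  by_cases hsq : Squarefree f
  · -- the reduced case
    left
    have h2 := tlem hP0 hd1 hf hf0 hsq (S.map (Fin.castAddEmb N)) (by
      intro j
      refine Fin.addCases (fun i => ?_) (fun i => ?_) j
      · intro hi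
        rw [h1l]
        exact hw2 i fun h => hi (Finset.mem_map_of_mem (Fin.castAddEmb N) h)
      · intro _
        rw [h1r]
        norm_num)
    have hmS : ∀ i : Fin s, Fin.castAdd N i ∈ S.map (Fin.castAddEmb N) ↔ i ∈ S := by
      intro i
      rw [Finset.mem_map]
      constructor
      · rintro ⟨a, ha, hab⟩
        have : a = i := Fin.castAdd_injective s N hab
        rwa [← this]
      · intro h
        exact ⟨i, h, rfl⟩
    have hnS : ∀ i : Fin N, Fin.natAdd s i ∉ S.map (Fin.castAddEmb N) := by
      intro i hi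
      obtain ⟨a, -, ha⟩ := Finset.mem_map.1 hi
      have h3 := congrArg Fin.val ha
      have h4 : (Fin.castAddEmb N a).val = a.val := rfl
      rw [h4, Fin.val_natAdd] at h3
      have := a.2
      omega
    rw [hext _ (fun i => if_neg (hnS i)) d] at h2
    have e1 : (fun j => if Fin.castAdd N j ∈ S.map (Fin.castAddEmb N) then w1 (Fin.castAdd N j)
        else 0) = fun j => if j ∈ S then w j else 0 := by
      funext j
      by_cases hj : j ∈ S
      · rw [if_pos hj, if_pos ((hmS j).2 hj), h1l]
      · rw [if_neg hj, if_neg (fun h => hj ((hmS j).1 h))]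
    rw [e1, Fin.sum_univ_add] at h2
    have e2 : ∑ i : Fin N, (if Fin.natAdd s i ∈ S.map (Fin.castAddEmb N) then 0
        else (w1 (Fin.natAdd s i) + 1).choose 2) = N := by
      rw [Finset.sum_congr rfl (fun i _ => by rw [if_neg (hnS i), h1r]; rfl :
        ∀ i ∈ Finset.univ, (if Fin.natAdd s i ∈ S.map (Fin.castAddEmb N) then 0
          else (w1 (Fin.natAdd s i) + 1).choose 2) = 1), Finset.sum_const, Finset.card_univ,
        Fintype.card_fin, smul_eq_mul, mul_one]
    have e3 : ∑ i : Fin s, (if Fin.castAdd N i ∈ S.map (Fin.castAddEmb N) then 0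
        else (w1 (Fin.castAdd N i) + 1).choose 2) =
        ∑ j, (if j ∈ S then 0 else (w j + 1).choose 2) := by
      refine Finset.sum_congr rfl fun j _ => ?_
      by_cases hj : j ∈ S
      · rw [if_pos hj, if_pos ((hmS j).2 hj)]
      · rw [if_neg hj, if_neg (fun h => hj ((hmS j).1 h)), h1l]
    rw [e2, e3] at h2
    have h3 := cond_le P w S d
    omega
  · right
    unfold Squarefree at hsq
    push Not at hsq
    obtain ⟨x, hx1, hx2⟩ := hsq
    have hx0 : x ≠ 0 := fun h => hf0 (by rw [h, zero_mul, zero_dvd_iff] at hx1; exact hx1)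
    obtain ⟨G, hG, hGx⟩ := WfDvdMonoid.exists_irreducible_factor hx2 hx0
    obtain ⟨h, hh⟩ : ∃ h, f = G * (G * h) := by
      obtain ⟨y, hy⟩ := hGx
      obtain ⟨z, hz⟩ := hx1
      exact ⟨y * y * z, by rw [hz, hy]; ring⟩
    have hfm := (mem_VS _ _ _ _).1 hf
    have hGe := Pool.Agent.Chud.homog_of_dvd hfm.1 hf0 (Dvd.intro _ hh.symm)
    choose u hu using fun j => exists_ord (p := P0 j) hG.ne_zero hGe
    obtain ⟨hwu, hed, hh0, hhm, b1, -, -⟩ := dbl hP0 hd1 hf hf0 hGe hu hh
    have he0 := deg_pos hG hGe
    obtain ⟨e, he⟩ : ∃ e, e = G.totalDegree := ⟨_, rfl⟩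
    rw [← he] at hed hhm b1 he0
    have hur : ∀ i : Fin N, u (Fin.natAdd s i) = 0 := by
      intro i
      have h3 := hwu (Fin.natAdd s i)
      rw [h1r] at h3
      omega
    refine ⟨e, fun j => u (Fin.castAdd N j), he0, hed, fun j => ?_, ?_, ?_⟩
    · have h3 := hwu (Fin.castAdd N j)
      rwa [h1l] at h3
    · rw [← hext u hur e]
      exact b1
    · -- the residual system
      have h3 : (fun j => w1 j - u j - u j) =
          fun j => if j ∈ A then 1 else (w0 j - u j - u j) := by
        funext j
        refine Fin.addCases (fun i => ?_) (fun i => ?_) j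
        · rw [if_neg (hAl i), h1l, h0l]
        · rw [if_pos (hAr i), h1r, hur]
      have h4 := pos_of_mem hhm hh0
      rw [h3, simple_set hP0 A (fun j hj => by
        beta_reduce
        rw [hAz j hj]
        omega), hAc, hext _ (fun i => by
        beta_reduce
        rw [h0r, hur]) (d - e - e)] at h4
      have e1 : (fun j => w0 (Fin.castAdd N j) - u (Fin.castAdd N j) - u (Fin.castAdd N j)) =
          fun j => w j - u (Fin.castAdd N j) - u (Fin.castAdd N j) := by
        funext j
        rw [h0l]
      rw [e1] at h4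
      have h5 : 0 < Module.finrank K ↥(VS (fun j => aff (P j)) (fun j => u (Fin.castAdd N j)) e) := by
        rw [← hext u hur e, b1]
        exact one_pos
      obtain ⟨G', hG', hG'0⟩ := exists_mem h5
      have m1 := mult_le (w := fun j => w j - u (Fin.castAdd N j) - u (Fin.castAdd N j))
        (d := d - e - e) hG' hG'0
      have m2 := mult_le (w := fun j => w j - u (Fin.castAdd N j) - u (Fin.castAdd N j) +
        u (Fin.castAdd N j)) (d := d - e - e + e) hG' hG'0
      have e2 : (fun j => w j - u (Fin.castAdd N j) - u (Fin.castAdd N j) + u (Fin.castAdd N j) +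
          u (Fin.castAdd N j)) = w := by
        funext j
        have h6 := hwu (Fin.castAdd N j)
        rw [h1l] at h6
        omega
      have e3 : d - e - e + e + e = d := by omega
      rw [e2, e3] at m2
      rw [hN] at m2 ⊢
      beta_reduce
      omega

/-- A system of curves which contains a reduced curve is nonspecial, if the system with the points
of a set `S`, outside of which the multiplicities are at most `2`, is nonspecial. Otherwise all
members have a fixed double component. -/
theorem segre {s : ℕ} {w : Fin s → ℕ} {S : Finset (Fin s)} (hw2 : ∀ j, j ∉ S → w j ≤ 2) {d : ℕ}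
    (hS : ∀ (K : Type) [Field K] [CharZero K] (P : Fin s → Fin 2 → K),
      AlgebraicIndependent ℚ (fun ij : Fin s × Fin 2 => P ij.1 ij.2) →
      0 < Module.finrank K ↥(VS (fun j => aff (P j)) (fun j => if j ∈ S then w j else 0) d) →
      (Module.finrank K ↥(VS (fun j => aff (P j)) (fun j => if j ∈ S then w j else 0) d) : ℤ) =
        chi d (fun j => if j ∈ S then w j else 0))
    {K : Type} [Field K] [CharZero K] {P : Fin s → Fin 2 → K}
    (hP : AlgebraicIndependent ℚ (fun ij : Fin s × Fin 2 => P ij.1 ij.2))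
    (hpos : 0 < Module.finrank K ↥(VS (fun j => aff (P j)) w d)) :
    (Module.finrank K ↥(VS (fun j => aff (P j)) w d) : ℤ) = chi d w ∨
      ∃ (e : ℕ) (u : Fin s → ℕ), 0 < e ∧ 2 * e ≤ d ∧ (∀ j, 2 * u j ≤ w j) ∧
        Module.finrank K ↥(VS (fun j => aff (P j)) u e) = 1 ∧
        Module.finrank K ↥(VS (fun j => aff (P j)) w d) =
          Module.finrank K ↥(VS (fun j => aff (P j)) (fun j => w j - u j - u j) (d - e - e)) := by
  classical
  rcases segre_eq hw2 hP hpos with h1 | h1
  · left
    have h3 := hS K P hP (by omega)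
    have h4 : ∑ j, (w j + 1).choose 2 = ∑ j, ((if j ∈ S then w j else 0) + 1).choose 2 +
        ∑ j, (if j ∈ S then 0 else (w j + 1).choose 2) := by
      rw [← Finset.sum_add_distrib]
      refine Finset.sum_congr rfl fun j _ => ?_
      by_cases hj : j ∈ S
      · simp [hj]
      · simp [hj]
    rw [chi_cast] at h3 ⊢
    omega
  · exact Or.inr h1

/-- A system with a squarefree member. -/
theorem segre_sq {s : ℕ} {w : Fin s → ℕ} {d : ℕ} {K : Type} [Field K] {P : Fin s → Fin 2 → K}
    {e : ℕ} {u : Fin s → ℕ} (he : 0 < e) (hed : 2 * e ≤ d) (hu : ∀ j, 2 * u j ≤ w j)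
    (h1 : 0 < Module.finrank K ↥(VS (fun j => aff (P j)) u e))
    (h2 : Module.finrank K ↥(VS (fun j => aff (P j)) w d) ≤
      Module.finrank K ↥(VS (fun j => aff (P j)) (fun j => w j - u j - u j) (d - e - e)))
    {f : MvPolynomial (Fin 3) K} (hf : f ∈ VS (fun j => aff (P j)) w d) : ¬ Squarefree f := by
  classical
  obtain ⟨G, hG, hG0⟩ := exists_mem h1
  have hGm := (mem_VS _ _ _ _).1 hG
  have hfin := vs_fin (fun j => aff (P j)) w d
  have hGG0 : G * G ≠ 0 := mul_ne_zero hG0 hG0
  have hinj : Function.Injective (LinearMap.mulRight K (G * G)) := by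
    intro a b hab
    rw [LinearMap.mulRight_apply, LinearMap.mulRight_apply] at hab
    exact mul_right_cancel₀ hGG0 hab
  have h3 : (VS (fun j => aff (P j)) (fun j => w j - u j - u j) (d - e - e)).map
      (LinearMap.mulRight K (G * G)) ≤ VS (fun j => aff (P j)) w d := by
    rintro _ ⟨g, hg, rfl⟩
    have hg' : g ∈ VS (fun j => aff (P j)) (fun j => w j - u j - u j) (d - e - e) := hg
    rw [mem_VS] at hg' ⊢
    rw [LinearMap.mulRight_apply]
    refine ⟨?_, fun j => ?_⟩
    · have h4 := hg'.1.mul (hGm.1.mul hGm.1)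
      have e1 : d - e - e + (e + e) = d := by omega
      rwa [e1] at h4
    · have h4 := van_mul (hg'.2 j) (van_mul (hGm.2 j) (hGm.2 j))
      have h5 := hu j
      have e1 : w j - u j - u j + (u j + u j) = w j := by omega
      beta_reduce at h4
      rwa [e1] at h4
  have h4 : (VS (fun j => aff (P j)) (fun j => w j - u j - u j) (d - e - e)).map
      (LinearMap.mulRight K (G * G)) = VS (fun j => aff (P j)) w d := by
    apply Submodule.eq_of_le_of_finrank_le h3
    rw [(LinearEquiv.finrank_eq (Submodule.equivMapOfInjective _ hinj _)).symm]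
    exact h2
  rw [← h4] at hf
  obtain ⟨g, -, rfl⟩ := hf
  intro hsq
  rw [LinearMap.mulRight_apply] at hsq
  exact not_unit he hGm.1 hG0 (hsq G (Dvd.intro_left g rfl))

end Pool.Agent.U479.DP
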